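import Pool.Agent.Y783.CR.Rec

/-!
# Graphs none of which is an induced subgraph of the other
-/

set_option autoImplicit false

namespace Pool.Agent.Y783.CR

open Pool.Agent.Results.MP_fbe9f6_co.BipartiteRelated

/-- A monochromatic induced copy inside the set `S`. -/
def MonoOn {W V κ : Type*} (H : SimpleGraph W) (G : SimpleGraph V) (c : W → κ) (S : Set W) :
    Prop :=
  ∃ (i : κ) (f : G ↪g H), ∀ v, f v ∈ S ∧ c (f v) = i

/-- Between the base `B` and everything there is a set with `F`-number exactly `r + 1`. -/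
theorem shave {W U : Type*} [Finite W] [Nontrivial U] (H : SimpleGraph W) (F : SimpleGraph U)
    {r : ℕ} (B : Set W) (h0 : ∃ c : W → Fin r, ¬ MonoOn H F c B)
    (h1 : ∀ c : W → Fin r, MonoOn H F c Set.univ) :
    ∃ S : Set W, B ⊆ S ∧ (∀ c : W → Fin r, MonoOn H F c S) ∧
      ∃ c : W → Fin (r + 1), ¬ MonoOn H F c S := by
  classical
  obtain ⟨S, hS⟩ := (Set.toFinite {S : Set W | B ⊆ S ∧ ∀ c : W → Fin r, MonoOn H F c S}).exists_minimal
    ⟨Set.univ, Set.subset_univ _, h1⟩
  have hS1 : B ⊆ S := hS.prop.1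
  have hS2 := hS.prop.2
  refine ⟨S, hS1, hS2, ?_⟩
  have hne : S ≠ B := by
    intro h
    obtain ⟨c, hc⟩ := h0
    exact hc (h ▸ hS2 c)
  obtain ⟨s, hsS, hsB⟩ : ∃ s ∈ S, s ∉ B := by
    by_contra hcon
    push Not at hcon
    exact hne (Set.Subset.antisymm hcon hS1)
  have h2 : ¬ ∀ c : W → Fin r, MonoOn H F c (S \ {s}) := by
    intro h
    have h3 : S ⊆ S \ {s} := hS.le_of_le
      (y := S \ {s}) ⟨fun x hx => ⟨hS1 hx, fun hxs => hsB (by
        rw [Set.mem_singleton_iff] at hxs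
        rw [← hxs]
        exact hx)⟩, h⟩ Set.sdiff_subset
    exact (h3 hsS).2 rfl
  push Not at h2
  obtain ⟨c, hc⟩ := h2
  refine ⟨fun w => if w = s then Fin.last r else (c w).castSucc, ?_⟩
  rintro ⟨i, f, hf⟩
  by_cases hi : i = Fin.last r
  · obtain ⟨x, y, hxy⟩ := exists_pair_ne U
    have h3 : ∀ v, f v = s := by
      intro v
      by_contra hv
      have h4 : (if f v = s then Fin.last r else (c (f v)).castSucc) = i := (hf v).2
      rw [if_neg hv, hi] at h4
      exact (Fin.castSucc_lt_last _).ne h4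
    exact hxy (f.injective ((h3 x).trans (h3 y).symm))
  · obtain ⟨x0, -, -⟩ := exists_pair_ne U
    have h3 : ∀ v, f v ≠ s := by
      intro v hv
      have h4 : (if f v = s then Fin.last r else (c (f v)).castSucc) = i := (hf v).2
      rw [if_pos hv] at h4
      exact hi h4.symm
    refine hc ⟨c (f x0), f, fun v => ⟨⟨(hf v).1, h3 v⟩, ?_⟩⟩
    have h4 : (if f v = s then Fin.last r else (c (f v)).castSucc) = i := (hf v).2
    have h5 : (if f x0 = s then Fin.last r else (c (f x0)).castSucc) = i := (hf x0).2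
    rw [if_neg (h3 _)] at h4 h5
    exact Fin.castSucc_injective _ (h4.trans h5.symm)

/-- Mutually unconnected (`b = False`) or completely joined (`b = True`) graphs. -/
def glue {W₁ W₂ : Type*} (b : Prop) (H₁ : SimpleGraph W₁) (H₂ : SimpleGraph W₂) :
    SimpleGraph (W₁ ⊕ W₂) where
  Adj x y := match x, y with
    | Sum.inl x, Sum.inl y => H₁.Adj x y
    | Sum.inl _, Sum.inr _ => b
    | Sum.inr _, Sum.inl _ => b
    | Sum.inr x, Sum.inr y => H₂.Adj x y
  symm := ⟨by
    rintro (x | p) (y | q) h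
    · exact H₁.symm.symm _ _ h
    · exact h
    · exact h
    · exact H₂.symm.symm _ _ h⟩
  loopless := ⟨by
    rintro (x | p) h
    · exact H₁.loopless.irrefl x h
    · exact H₂.loopless.irrefl p h⟩

/-- A graph or its complement is connected. -/
theorem conn_or {V : Type*} [Nontrivial V] (G : SimpleGraph V) : Conn G ∨ Conn Gᶜ := by
  by_contra hcon
  push Not at hcon
  obtain ⟨h1, h2⟩ := hcon
  apply h2
  refine ⟨inferInstance, ?_⟩
  have h3 : ¬ ∀ A : Set V, A.Nonempty → (∀ x y, G.Adj x y → (x ∈ A ↔ y ∈ A)) → ∀ x, x ∈ A :=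
    fun h => h1 ⟨inferInstance, h⟩
  push Not at h3
  obtain ⟨A, ⟨a, ha⟩, hA, b, hb⟩ := h3
  intro A' hA' hcl
  have hcross : ∀ x y, x ∈ A → y ∉ A → (x ∈ A' ↔ y ∈ A') := by
    intro x y hx hy
    apply hcl
    rw [SimpleGraph.compl_adj]
    refine ⟨fun h => hy (h ▸ hx), fun h => hy ((hA x y h).1 hx)⟩
  obtain ⟨x, hx⟩ := hA'
  have hab : a ∈ A' ∧ b ∈ A' := by
    by_cases hxA : x ∈ A
    · have h4 := (hcross x b hxA hb).1 hx
      exact ⟨(hcross a b ha hb).2 h4, h4⟩
    · have h4 := (hcross a x ha hxA).2 hx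
      exact ⟨h4, (hcross a b ha hb).1 h4⟩
  intro y
  by_cases hy : y ∈ A
  · exact (hcross y b hy hb).2 hab.2
  · exact (hcross a y ha hy).1 hab.1

/-- For a suitable way of gluing, induced copies of `G` lie on one side. -/
theorem exists_glue {V : Type*} [Nontrivial V] (G : SimpleGraph V) :
    ∃ b : Prop, ∀ (W₁ W₂ : Type) (H₁ : SimpleGraph W₁) (H₂ : SimpleGraph W₂)
      (f : G ↪g glue b H₁ H₂), (∀ v, ∃ w, f v = Sum.inl w) ∨ ∀ v, ∃ w, f v = Sum.inr w := by
  rcases conn_or G with h | h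
  · refine ⟨False, fun W₁ W₂ H₁ H₂ f => ?_⟩
    by_cases hne : ∃ v w, f v = Sum.inl w
    · left
      refine h.2 {v | ∃ w, f v = Sum.inl w} hne ?_
      intro x y hxy
      have h1 : (glue False H₁ H₂).Adj (f x) (f y) := f.map_adj_iff.2 hxy
      rcases hx : f x with a | a <;> rcases hy : f y with b | b
      · simp [hx, hy]
      · rw [hx, hy] at h1
        exact h1.elim
      · rw [hx, hy] at h1
        exact h1.elim
      · simp [hx, hy]
    · right
      intro v
      rcases hv : f v with a | a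
      · exact (hne ⟨v, a, hv⟩).elim
      · exact ⟨a, rfl⟩
  · refine ⟨True, fun W₁ W₂ H₁ H₂ f => ?_⟩
    by_cases hne : ∃ v w, f v = Sum.inl w
    · left
      refine h.2 {v | ∃ w, f v = Sum.inl w} hne ?_
      intro x y hxy
      rw [SimpleGraph.compl_adj] at hxy
      have h1 : ¬ (glue True H₁ H₂).Adj (f x) (f y) := fun h => hxy.2 (f.map_adj_iff.1 h)
      rcases hx : f x with a | a <;> rcases hy : f y with b | b
      · simp [hx, hy]
      · rw [hx, hy] at h1
        exact (h1 trivial).elim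
      · rw [hx, hy] at h1
        exact (h1 trivial).elim
      · simp [hx, hy]
    · right
      intro v
      rcases hv : f v with a | a
      · exact (hne ⟨v, a, hv⟩).elim
      · exact ⟨a, rfl⟩

/-- The number of colours is exactly `r + 1`. -/
theorem number_eq {W U : Type*} [Nonempty U] (H : SimpleGraph W) (F : SimpleGraph U) {r : ℕ}
    (h1 : ∀ c : W → Fin r, Mono H F c) (h2 : ∃ c : W → Fin (r + 1), ¬ Mono H F c) :
    FreeChromaticNumberEq H F (r + 1) := by
  refine ⟨?_, ?_⟩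
  · obtain ⟨c, hc⟩ := h2
    exact ⟨c, (free_iff H F c).2 hc⟩
  · rintro k ⟨c, hc⟩
    by_contra hlt
    push Not at hlt
    have h3 := hc.castLE (show k ≤ r by omega)
    exact (free_iff H F _).1 h3 (h1 _)

theorem mono_induce {W U : Type*} (H : SimpleGraph W) (F : SimpleGraph U) {r : ℕ} (hr : 1 ≤ r)
    (S : Set W) (h : ∀ c : W → Fin r, MonoOn H F c S) (c : S → Fin r) :
    Mono (H.induce S) F c := by
  classical
  obtain ⟨i, f, hf⟩ := h (fun w => if hw : w ∈ S then c ⟨w, hw⟩ else ⟨0, hr⟩)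
  refine ⟨i, ⟨⟨fun v => ⟨f v, (hf v).1⟩, ?_⟩, ?_⟩, ?_⟩
  · intro a b hab
    exact f.injective (by simpa using hab)
  · intro a b
    exact f.map_adj_iff
  · intro v
    have h1 : (if hw : f v ∈ S then c ⟨f v, hw⟩ else ⟨0, hr⟩) = i := (hf v).2
    rw [dif_pos (hf v).1] at h1
    exact h1

theorem not_mono_induce {W U κ : Type*} (H : SimpleGraph W) (F : SimpleGraph U)
    (S : Set W) (c : W → κ) (h : ¬ MonoOn H F c S) :
    ¬ Mono (H.induce S) F (fun w => c w.1) := by
  rintro ⟨i, f, hf⟩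
  refine h ⟨i, ⟨⟨fun v => (f v).1, ?_⟩, ?_⟩, fun v => ⟨(f v).2, hf v⟩⟩
  · intro a b hab
    exact f.injective (Subtype.ext hab)
  · intro a b
    exact f.map_adj_iff

/-- If there are `F`-free graphs with large `G`-number and `G`-free graphs with large `F`-number,
then `F` and `G` are chromatically related. -/
theorem related_of_incomparable {U V : Type*} [Nontrivial U] [Nontrivial V] (F : SimpleGraph U)
    (G : SimpleGraph V)
    (h1 : ∀ r : ℕ, 1 ≤ r → ∃ (W : Type) (_ : Finite W) (H : SimpleGraph W), IsEmpty (F ↪g H) ∧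
      ∀ c : W → Fin r, Mono H G c)
    (h2 : ∀ r : ℕ, 1 ≤ r → ∃ (W : Type) (_ : Finite W) (H : SimpleGraph W), IsEmpty (G ↪g H) ∧
      ∀ c : W → Fin r, Mono H F c) : ChromaticallyRelated F G := by
  classical
  intro l hl
  obtain ⟨r, hr, rfl⟩ : ∃ r, 1 ≤ r ∧ l = r + 1 := ⟨l - 1, by omega, by omega⟩
  obtain ⟨W₁, _, H₁, hH₁, hc₁⟩ := h2 r hr
  obtain ⟨W₂, _, H₂', hH₂', hc₂'⟩ := h1 r hr
  -- reduce the second graph
  obtain ⟨S₂, -, hS₂, c₂, hc₂⟩ := shave H₂' G (r := r) ∅
    ⟨fun _ => ⟨0, hr⟩, by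
      rintro ⟨i, f, hf⟩
      obtain ⟨x0, -, -⟩ := exists_pair_ne V
      exact (hf x0).1⟩
    (fun c => by
      obtain ⟨i, f, hf⟩ := hc₂' c
      exact ⟨i, f, fun v => ⟨Set.mem_univ _, hf v⟩⟩)
  have hH₂ : IsEmpty (F ↪g H₂'.induce S₂) := by
    refine ⟨fun f => hH₂'.false ⟨⟨fun v => (f v).1, ?_⟩, ?_⟩⟩
    · intro a b hab
      exact f.injective (Subtype.ext hab)
    · intro a b
      exact f.map_adj_iff
  have hc2a : ∀ c : S₂ → Fin r, Mono (H₂'.induce S₂) G c := mono_induce H₂' G hr S₂ hS₂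
  have hc2b := not_mono_induce H₂' G S₂ c₂ hc₂
  generalize H₂'.induce S₂ = H₂ at hH₂ hc2a hc2b
  generalize (fun w : S₂ => c₂ w.1) = d₂ at hc2b
  obtain ⟨b, hb⟩ := exists_glue G
  obtain ⟨S, hBS, hS1, c, hc⟩ := shave (glue b H₁ H₂) F (r := r) (Set.range Sum.inr)
    ⟨fun _ => ⟨0, hr⟩, by
      rintro ⟨i, f, hf⟩
      choose g hg using fun v => (hf v).1
      refine hH₂.false ⟨⟨g, ?_⟩, ?_⟩
      · intro x y hxy
        refine f.injective ?_
        rw [← hg x, ← hg y, hxy]
      · intro x y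
        have h3 : (glue b H₁ H₂).Adj (f x) (f y) ↔ F.Adj x y := f.map_adj_iff
        rw [← hg x, ← hg y] at h3
        exact h3⟩
    (fun c => by
      obtain ⟨i, f, hf⟩ := hc₁ (fun w => c (Sum.inl w))
      refine ⟨i, ⟨⟨fun v => Sum.inl (f v), ?_⟩, ?_⟩, fun v => ⟨Set.mem_univ _, hf v⟩⟩
      · intro x y hxy
        exact f.injective (Sum.inl_injective hxy)
      · intro x y
        exact f.map_adj_iff)
  refine ⟨S, inferInstance, (glue b H₁ H₂).induce S, number_eq _ _ (mono_induce _ _ hr S hS1)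
    ⟨_, not_mono_induce _ _ S c hc⟩, number_eq _ _ (mono_induce _ _ hr S ?_)
    ⟨_, not_mono_induce _ _ S (Sum.elim (fun _ => 0) d₂) ?_⟩⟩
  · intro c
    obtain ⟨i, f, hf⟩ := hc2a (fun w => c (Sum.inr w))
    refine ⟨i, ⟨⟨fun v => Sum.inr (f v), ?_⟩, ?_⟩, fun v => ⟨hBS ⟨_, rfl⟩, hf v⟩⟩
    · intro x y hxy
      exact f.injective (Sum.inr_injective hxy)
    · intro x y
      exact f.map_adj_iff
  · rintro ⟨i, f, hf⟩
    rcases hb _ _ H₁ H₂ f with h | h
    · choose g hg using h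
      refine hH₁.false ⟨⟨g, ?_⟩, ?_⟩
      · intro x y hxy
        refine f.injective ?_
        rw [hg x, hg y, hxy]
      · intro x y
        have h3 : (glue b H₁ H₂).Adj (f x) (f y) ↔ G.Adj x y := f.map_adj_iff
        rw [hg x, hg y] at h3
        exact h3
    · choose g hg using h
      refine hc2b ⟨i, ⟨⟨g, ?_⟩, ?_⟩, ?_⟩
      · intro x y hxy
        refine f.injective ?_
        rw [hg x, hg y, hxy]
      · intro x y
        have h3 : (glue b H₁ H₂).Adj (f x) (f y) ↔ G.Adj x y := f.map_adj_iff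
        rw [hg x, hg y] at h3
        exact h3
      · intro v
        have h3 := (hf v).2
        rw [hg v] at h3
        exact h3

end Pool.Agent.Y783.CR
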