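import Pool.Agent.Y783.CR.Hyper
import Pool.Agent.Y783.CR.Comb

/-!
# The vertex Ramsey property for 2-connected and for prime forbidden graphs
-/

set_option autoImplicit false

namespace Pool.Agent.Y783.CR

open Pool.Agent.Results.MP_fbe9f6_co.BipartiteRelated

/-- `F` has at least two vertices, is connected, and has no cut vertex: if `A` and `B` are disjoint
nonempty sets of vertices without edges between them, then at least two vertices lie outside
`A ∪ B`. -/
def TwoConn {U : Type*} (F : SimpleGraph U) : Prop :=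
  Nontrivial U ∧ ∀ A B : Set U, A.Nonempty → B.Nonempty → (∀ x, x ∈ A → x ∉ B) →
    (∀ a ∈ A, ∀ b ∈ B, ¬ F.Adj a b) → ∃ x y, x ≠ y ∧ x ∉ A ∧ x ∉ B ∧ y ∉ A ∧ y ∉ B

theorem TwoConn.conn {U : Type*} {F : SimpleGraph U} (hF : TwoConn F) : Conn F := by
  refine ⟨hF.1, fun A hA h => ?_⟩
  by_contra hcon
  push Not at hcon
  obtain ⟨b, hb⟩ := hcon
  obtain ⟨x, y, -, h1, h2, -⟩ := hF.2 A Aᶜ hA ⟨b, hb⟩ (fun x hx hx' => hx' hx)
    (fun a ha b hb hab => hb ((h a b hab).1 ha))
  exact h2 h1

theorem Conn.exists_adj {U : Type*} {F : SimpleGraph U} (hF : Conn F) (x : U) :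
    ∃ y, F.Adj x y := by
  by_contra hcon
  push Not at hcon
  have h := hF.2 {x} ⟨x, rfl⟩ (by
    intro a b hab
    constructor
    · intro ha
      rw [Set.mem_singleton_iff] at ha
      subst ha
      exact (hcon _ hab).elim
    · intro hb
      rw [Set.mem_singleton_iff] at hb
      subst hb
      exact (hcon _ hab.symm).elim)
  obtain ⟨a, b, hab⟩ := hF.1
  have ha := h a
  have hb := h b
  rw [Set.mem_singleton_iff] at ha hb
  exact hab (ha.trans hb.symm)

section Amalgam

variable {P ι X EX : Type} (K : SimpleGraph P) (π : P → ι) (j : ι)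
  (mX : EX → {x // π x = j} ↪ X)

/-- Amalgam of copies of `K`, attached to `X` along the part `j` by the maps `mX ε`. -/
def amalg2 : SimpleGraph (X ⊕ (EX × {x // π x ≠ j})) where
  Adj a b := match a, b with
    | Sum.inl _, Sum.inl _ => False
    | Sum.inl x, Sum.inr p => ∃ u : {x // π x = j}, mX p.1 u = x ∧ K.Adj u.1 p.2.1
    | Sum.inr p, Sum.inl x => ∃ u : {x // π x = j}, mX p.1 u = x ∧ K.Adj u.1 p.2.1
    | Sum.inr p, Sum.inr q => p.1 = q.1 ∧ K.Adj p.2.1 q.2.1
  symm := ⟨by
    rintro (x | p) (y | q) h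
    · exact h
    · exact h
    · exact h
    · exact ⟨h.1.symm, h.2.symm⟩⟩
  loopless := ⟨by
    rintro (x | p) h
    · exact h
    · exact h.2.ne rfl⟩

variable {K π j mX}

theorem cMap_adj (hpart : ∀ x y, π x = π y → ¬ K.Adj x y) (ε : EX) (x y : P) :
    (amalg2 K π j mX).Adj (cMap π j mX ε x) (cMap π j mX ε y) ↔ K.Adj x y := by
  by_cases hx : π x = j <;> by_cases hy : π y = j
  · rw [cMap_pos ε hx, cMap_pos ε hy]
    constructor
    · intro h
      exact h.elim
    · intro h
      exact (hpart x y (hx.trans hy.symm) h).elim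
  · rw [cMap_pos ε hx, cMap_neg ε hy]
    constructor
    · rintro ⟨u, hu, hadj⟩
      have := (mX ε).injective hu
      subst this
      exact hadj
    · intro h
      exact ⟨⟨x, hx⟩, rfl, h⟩
  · rw [cMap_neg ε hx, cMap_pos ε hy]
    constructor
    · rintro ⟨u, hu, hadj⟩
      have := (mX ε).injective hu
      subst this
      exact hadj.symm
    · intro h
      exact ⟨⟨y, hy⟩, rfl, h.symm⟩
  · rw [cMap_neg ε hx, cMap_neg ε hy]
    constructor
    · intro h
      exact h.2
    · intro h
      exact ⟨rfl, h⟩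

theorem amalg2_free {U : Type*} [Finite U] {F : SimpleGraph U} (hF : TwoConn F)
    (hX : Sparse (fun ε => Set.range (mX ε)) (Nat.card U))
    (hpart : ∀ x y, π x = π y → ¬ K.Adj x y) (hK : IsEmpty (F ↪g K)) :
    IsEmpty (F ↪g amalg2 K π j mX) := by
  classical
  have := Fintype.ofFinite U
  refine ⟨fun f => ?_⟩
  -- a vertex outside `X`
  have h0 : ∃ (v0 : U) (p0 : EX × {x // π x ≠ j}), f v0 = Sum.inr p0 := by
    by_contra hcon
    push Not at hcon
    obtain ⟨x0, -, -⟩ := hF.1
    obtain ⟨y0, h0⟩ := hF.conn.exists_adj x0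
    have h1 : (amalg2 K π j mX).Adj (f x0) (f y0) := f.map_adj_iff.2 h0
    rcases hx : f x0 with x | p
    · rcases hy : f y0 with y | q
      · rw [hx, hy] at h1
        exact h1
      · exact hcon _ _ hy
    · exact hcon _ _ hx
  obtain ⟨v0, ⟨ε0, w0⟩, hv0⟩ := h0
  -- the copies that are met outside `X`
  let 𝓒 : Finset EX := Finset.univ.biUnion (fun v : U =>
    Sum.elim (fun _ => (∅ : Finset EX)) (fun p => {p.1}) (f v))
  have hmem : ∀ ε, ε ∈ 𝓒 ↔ ∃ (v : U) (w : {x // π x ≠ j}), f v = Sum.inr (ε, w) := by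
    intro ε
    simp only [𝓒, Finset.mem_biUnion, Finset.mem_univ, true_and]
    refine exists_congr fun v => ?_
    rcases hv : f v with x | ⟨ε', w⟩
    · simp
    · simp only [Sum.elim_inr, Finset.mem_singleton, Sum.inr.injEq, Prod.mk.injEq]
      constructor
      · rintro rfl
        exact ⟨w, rfl, rfl⟩
      · rintro ⟨_, h, _⟩
        exact h.symm
  have hcardC : 𝓒.card ≤ Nat.card U := by
    refine Finset.card_biUnion_le.trans ?_
    rw [Nat.card_eq_fintype_card, ← Finset.card_univ, Finset.card_eq_sum_ones]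
    refine Finset.sum_le_sum fun v _ => ?_
    rcases f v with x | p
    · simp
    · simp
  have hε0 : ε0 ∈ 𝓒 := (hmem ε0).2 ⟨v0, w0, hv0⟩
  by_cases h1 : 𝓒.card ≤ 1
  · -- everything lies in the copy `ε0`
    have hcomp : ∀ v (p : EX × {x // π x ≠ j}), f v = Sum.inr p → p.1 = ε0 := by
      rintro v ⟨ε, w⟩ hv
      exact Finset.card_le_one.1 h1 ε ((hmem ε).2 ⟨v, w, hv⟩) ε0 hε0
    have hrange : ∀ v, ∃ x, cMap π j mX ε0 x = f v := by
      intro v
      rcases hfv : f v with x | p
      · obtain ⟨w, hw⟩ := hF.conn.exists_adj v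
        have h1 : (amalg2 K π j mX).Adj (f v) (f w) := f.map_adj_iff.2 hw
        rcases hfw : f w with y | q
        · rw [hfv, hfw] at h1
          exact h1.elim
        · rw [hfv, hfw] at h1
          obtain ⟨u, hu, -⟩ := h1
          have hq := hcomp w q hfw
          rw [hq] at hu
          refine ⟨u.1, ?_⟩
          rw [cMap_pos ε0 u.2, ← hu]
      · have hp := hcomp v p hfv
        refine ⟨p.2.1, ?_⟩
        rw [cMap_neg ε0 p.2.2, ← hp]
    choose g hg using hrange
    refine hK.false ⟨⟨g, ?_⟩, ?_⟩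
    · intro a b hab
      refine f.injective ?_
      rw [← hg a, ← hg b, hab]
    · intro a b
      have h1 := cMap_adj (mX := mX) hpart ε0 (g a) (g b)
      rw [hg a, hg b] at h1
      exact h1.symm.trans f.map_adj_iff
  · -- a leaf gives a cut vertex
    push Not at h1
    obtain ⟨ε, hε, ε', hε', hne, hleaf, -⟩ := hX 𝓒 h1 hcardC
    have hout : ∀ x, x ∈ Set.range (mX ε) → ¬ (x ∈ Set.range (mX ε) ∧
        ∀ d ∈ 𝓒, d ≠ ε → x ∉ Set.range (mX d)) → ∃ d ∈ 𝓒, d ≠ ε ∧ x ∈ Set.range (mX d) := by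
      intro x hx h
      by_contra hcon
      push Not at hcon
      exact h ⟨hx, hcon⟩
    obtain ⟨x, y, hxy, hxA, hxB, hyA, hyB⟩ := hF.2
      {v | (∃ w, f v = Sum.inr (ε, w)) ∨ ∃ x, f v = Sum.inl x ∧ x ∈ Set.range (mX ε) ∧
        ∀ d ∈ 𝓒, d ≠ ε → x ∉ Set.range (mX d)}
      {v | (∃ d w, d ≠ ε ∧ f v = Sum.inr (d, w)) ∨ ∃ x, f v = Sum.inl x ∧
        x ∉ Set.range (mX ε)}
      (by
        obtain ⟨v, w, hv⟩ := (hmem ε).1 hε
        exact ⟨v, Or.inl ⟨w, hv⟩⟩)
      (by
        obtain ⟨v, w, hv⟩ := (hmem ε').1 hε'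
        exact ⟨v, Or.inl ⟨ε', w, hne.symm, hv⟩⟩)
      (by
        rintro v (⟨w, hw⟩ | ⟨x, hx, hx1, hx2⟩) (⟨d, w', hd, hw'⟩ | ⟨x', hx', hx1'⟩)
        · rw [hw] at hw'
          exact hd (congrArg Prod.fst (Sum.inr_injective hw')).symm
        · rw [hw] at hx'
          exact Sum.inr_ne_inl hx'
        · rw [hx] at hw'
          exact Sum.inl_ne_inr hw'
        · rw [hx] at hx'
          rw [Sum.inl_injective hx'] at hx1
          exact hx1' hx1)
      (by
        rintro a (⟨w, hw⟩ | ⟨x, hx, hx1, hx2⟩) b (⟨d, w', hd, hw'⟩ | ⟨x', hx', hx1'⟩) hab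
        · have h2 : (amalg2 K π j mX).Adj (f a) (f b) := f.map_adj_iff.2 hab
          rw [hw, hw'] at h2
          exact hd h2.1.symm
        · have h2 : (amalg2 K π j mX).Adj (f a) (f b) := f.map_adj_iff.2 hab
          rw [hw, hx'] at h2
          obtain ⟨u, hu, -⟩ := h2
          exact hx1' ⟨u, hu⟩
        · have h2 : (amalg2 K π j mX).Adj (f a) (f b) := f.map_adj_iff.2 hab
          rw [hx, hw'] at h2
          obtain ⟨u, hu, -⟩ := h2
          exact hx2 d ((hmem d).2 ⟨b, w', hw'⟩) hd ⟨u, hu⟩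
        · have h2 : (amalg2 K π j mX).Adj (f a) (f b) := f.map_adj_iff.2 hab
          rw [hx, hx'] at h2
          exact h2)
    have key : ∀ v, v ∉ {v | (∃ w, f v = Sum.inr (ε, w)) ∨ ∃ x, f v = Sum.inl x ∧
        x ∈ Set.range (mX ε) ∧ ∀ d ∈ 𝓒, d ≠ ε → x ∉ Set.range (mX d)} →
        v ∉ {v | (∃ d w, d ≠ ε ∧ f v = Sum.inr (d, w)) ∨ ∃ x, f v = Sum.inl x ∧
        x ∉ Set.range (mX ε)} → ∃ x, f v = Sum.inl x ∧ x ∈ Set.range (mX ε) ∧
          ∃ d ∈ 𝓒, d ≠ ε ∧ x ∈ Set.range (mX d) := by
      intro v hA hB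
      rw [Set.mem_ofPred_eq, not_or] at hA hB
      rcases hv : f v with z | ⟨d, w⟩
      · have hz : z ∈ Set.range (mX ε) := by
          by_contra hcon
          exact hB.2 ⟨z, hv, hcon⟩
        refine ⟨z, rfl, hz, hout z hz fun h => hA.2 ⟨z, hv, h⟩⟩
      · by_cases hd : d = ε
        · subst hd
          exact (hA.1 ⟨w, hv⟩).elim
        · exact (hB.1 ⟨d, w, hd, hv⟩).elim
    obtain ⟨x', hx1, hx2, hx3⟩ := key x hxA hxB
    obtain ⟨y', hy1, hy2, hy3⟩ := key y hyA hyB
    have h2 := hleaf x' y' hx2 hy2 hx3 hy3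
    refine hxy (f.injective ?_)
    rw [hx1, hy1, h2]

end Amalgam

/-- The partite construction. -/
theorem partite2 {U : Type*} [Finite U] {F : SimpleGraph U} (hF : TwoConn F) {r : ℕ} (hr : 1 ≤ r)
    {ι : Type} {P : Type} [Finite P] (K : SimpleGraph P) (π : P → ι)
    (hpart : ∀ x y, π x = π y → ¬ K.Adj x y) (hK : IsEmpty (F ↪g K)) (J : Finset ι) :
    ∃ (P' : Type) (_ : Finite P') (K' : SimpleGraph P') (π' : P' → ι),
      (∀ x y, π' x = π' y → ¬ K'.Adj x y) ∧ IsEmpty (F ↪g K') ∧
      ∀ c : P' → Fin r, ∃ f : K ↪g K', (∀ x, π' (f x) = π x) ∧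
        ∀ x y, π x = π y → π x ∈ J → c (f x) = c (f y) := by
  classical
  induction J using Finset.induction_on with
  | empty =>
    refine ⟨P, inferInstance, K, π, hpart, hK, fun c => ⟨SimpleGraph.Embedding.refl, ?_, ?_⟩⟩
    · intro x
      rfl
    · intro x y _ h
      exact absurd h (Finset.notMem_empty _)
  | insert j J _ ih =>
    obtain ⟨P', hP', K', π', hpart', hK', hc'⟩ := ih
    obtain ⟨X, hX, EX, hEX, mX, hXs, hXc⟩ := hg (Nat.card U) {x // π' x = j} r hr
    refine ⟨X ⊕ (EX × {x // π' x ≠ j}), inferInstance, amalg2 K' π' j mX,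
      newPart π' j, ?_, amalg2_free hF hXs hpart' hK', ?_⟩
    · rintro (x | p) (y | q) hxy hadj
      · exact hadj
      · exact q.2.2 hxy.symm
      · exact p.2.2 hxy
      · exact hpart' _ _ hxy hadj.2
    · intro c
      obtain ⟨ε, i, he⟩ := hXc (fun x => c (Sum.inl x))
      obtain ⟨f, hf1, hf2⟩ := hc' (fun x => c (cMap π' j mX ε x))
      refine ⟨⟨⟨fun x => cMap π' j mX ε (f x), ?_⟩, ?_⟩, ?_, ?_⟩
      · intro a b hab
        exact f.injective (cMap_injective ε hab)
      · intro a b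
        exact (cMap_adj hpart' ε _ _).trans f.map_adj_iff
      · intro x
        change newPart π' j (cMap π' j mX ε (f x)) = π x
        rw [newPart_cMap]
        exact hf1 x
      · intro x y hxy hx
        change c (cMap π' j mX ε (f x)) = c (cMap π' j mX ε (f y))
        rw [Finset.mem_insert] at hx
        rcases hx with hx | hx
        · have h1 : π' (f x) = j := (hf1 x).trans hx
          have h2 : π' (f y) = j := (hf1 y).trans (hxy.symm.trans hx)
          rw [cMap_pos ε h1, cMap_pos ε h2, he, he]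
        · exact hf2 x y hxy hx

/-- **Vertex Ramsey property for 2-connected forbidden graphs.** -/
theorem ram_of_twoConn {U : Type*} [Finite U] {F : SimpleGraph U} (hF : TwoConn F) : Ram F := by
  classical
  intro V _ G hG r hr
  let ι : Type := Fin r × V
  have := Fintype.ofFinite V
  obtain ⟨R, hR, K, π', -, hK, hc⟩ := partite2 hF hr (copies (V ↪ ι) G)
    (fun x : (V ↪ ι) × V => x.1 x.2) (by
      rintro ⟨e, u⟩ ⟨e', v⟩ hxy ⟨h1, h2⟩
      dsimp only at hxy h1 h2
      subst h1
      exact h2.ne (e.injective hxy)) (copies_free hF.conn hG) (Finset.univ : Finset ι)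
  refine ⟨R, hR, K, hK, fun c => ?_⟩
  obtain ⟨f, -, hf⟩ := hc c
  let d : ι → Fin r := fun i => if h : ∃ x : (V ↪ ι) × V, x.1 x.2 = i then c (f h.choose)
    else ⟨0, hr⟩
  obtain ⟨i, e, he⟩ := pigeon hr V d
  refine ⟨i, ⟨⟨fun v => f (e, v), ?_⟩, ?_⟩, ?_⟩
  · intro a b hab
    have h1 : ((e, a) : (V ↪ ι) × V) = (e, b) := f.injective hab
    exact congrArg Prod.snd h1
  · intro a b
    refine f.map_adj_iff.trans ?_
    constructor
    · intro h
      exact h.2
    · intro h
      exact ⟨rfl, h⟩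
  · intro v
    have hex : ∃ x : (V ↪ ι) × V, x.1 x.2 = e v := ⟨(e, v), rfl⟩
    have h1 : d (e v) = c (f hex.choose) := dif_pos hex
    rw [he v] at h1
    rw [h1]
    refine (hf hex.choose (e, v) hex.choose_spec (Finset.mem_univ _)).symm

/-- `F` is prime: the only homogeneous sets (sets whose vertices cannot be distinguished from
outside) are the empty set, the single vertices and the whole vertex set. -/
def PrimeGraph {U : Type*} (F : SimpleGraph U) : Prop :=
  ∀ M : Set U, (∀ z, z ∉ M → ∀ x ∈ M, ∀ y ∈ M, (F.Adj z x ↔ F.Adj z y)) →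
    M.Subsingleton ∨ M = Set.univ

/-- The lexicographic product. -/
def lex {V R : Type} (G : SimpleGraph V) (K : SimpleGraph R) : SimpleGraph (V × R) where
  Adj a b := G.Adj a.1 b.1 ∨ (a.1 = b.1 ∧ K.Adj a.2 b.2)
  symm := ⟨by
    rintro a b (h | h)
    · exact Or.inl h.symm
    · exact Or.inr ⟨h.1.symm, h.2.symm⟩⟩
  loopless := ⟨by
    rintro a (h | h)
    · exact h.ne rfl
    · exact h.2.ne rfl⟩

theorem lex_free {U : Type*} {V R : Type} {F : SimpleGraph U} (hF : PrimeGraph F) [Nontrivial U]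
    {G : SimpleGraph V} {K : SimpleGraph R} (hG : IsEmpty (F ↪g G)) (hK : IsEmpty (F ↪g K)) :
    IsEmpty (F ↪g lex G K) := by
  refine ⟨fun f => ?_⟩
  have hmod : ∀ v : V, Set.Subsingleton {u | (f u).1 = v} ∨ {u | (f u).1 = v} = Set.univ := by
    intro v
    apply hF
    intro z hz x hx y hy
    rw [Set.mem_ofPred_eq] at hz hx hy
    rw [← f.map_adj_iff, ← f.map_adj_iff (v := z) (w := y)]
    constructor
    · rintro (h | h)
      · left
        rw [hy]
        rw [hx] at h
        exact h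
      · exact (hz (h.1.trans hx)).elim
    · rintro (h | h)
      · left
        rw [hx]
        rw [hy] at h
        exact h
      · exact (hz (h.1.trans hy)).elim
  by_cases hall : ∃ v, {u | (f u).1 = v} = Set.univ
  · obtain ⟨v, hv⟩ := hall
    have h1 : ∀ u, (f u).1 = v := fun u => (Set.eq_univ_iff_forall.1 hv) u
    refine hK.false ⟨⟨fun u => (f u).2, ?_⟩, ?_⟩
    · intro a b hab
      exact f.injective (Prod.ext ((h1 a).trans (h1 b).symm) hab)
    · intro a b
      rw [← f.map_adj_iff]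
      constructor
      · intro h
        exact Or.inr ⟨(h1 a).trans (h1 b).symm, h⟩
      · rintro (h | h)
        · rw [h1 a, h1 b] at h
          exact (h.ne rfl).elim
        · exact h.2
  · push Not at hall
    have h1 : ∀ a b, (f a).1 = (f b).1 → a = b := by
      intro a b hab
      exact ((hmod (f b).1).resolve_right (hall _)) hab rfl
    refine hG.false ⟨⟨fun u => (f u).1, fun a b hab => h1 a b hab⟩, ?_⟩
    intro a b
    rw [← f.map_adj_iff]
    constructor
    · intro h
      exact Or.inl h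
    · rintro (h | h)
      · exact h
      · have := h1 a b h.1
        subst this
        exact (h.2.ne rfl).elim

/-- **Vertex Ramsey property for prime forbidden graphs.** -/
theorem ram_of_prime {U : Type*} [Nontrivial U] {F : SimpleGraph U} (hF : PrimeGraph F) :
    Ram F := by
  classical
  intro V _ G hG r hr
  induction r, hr using Nat.le_induction with
  | base =>
    refine ⟨V, inferInstance, G, hG, fun c => ⟨0, SimpleGraph.Embedding.refl, fun v => ?_⟩⟩
    exact Subsingleton.elim _ _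
  | succ r hr ih =>
    obtain ⟨R, _, K, hK, hc⟩ := ih
    refine ⟨V × R, inferInstance, lex G K, lex_free hF hG hK, fun c => ?_⟩
    by_cases h : ∀ v, ∃ x, c (v, x) = Fin.last r
    · choose x hx using h
      refine ⟨Fin.last r, ⟨⟨fun v => (v, x v), fun a b hab => congrArg Prod.fst hab⟩, ?_⟩, hx⟩
      intro a b
      constructor
      · rintro (h | h)
        · exact h
        · have h1 : a = b := h.1
          subst h1
          exact (h.2.ne rfl).elim
      · intro h
        exact Or.inl h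
    · push Not at h
      obtain ⟨v, hv⟩ := h
      obtain ⟨i, f, hf⟩ := hc (fun x => (c (v, x)).castPred (hv x))
      refine ⟨i.castSucc, ⟨⟨fun u => (v, f u), fun a b hab =>
        f.injective (congrArg Prod.snd hab)⟩, ?_⟩, ?_⟩
      · intro a b
        rw [← f.map_adj_iff]
        constructor
        · rintro (h | h)
          · exact (h.ne rfl).elim
          · exact h.2
        · intro h
          exact Or.inr ⟨rfl, h⟩
      · intro u
        have h1 : (c (v, f u)).castPred (hv (f u)) = i := hf u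
        rw [← h1]
        exact (Fin.castSucc_castPred _ _).symm

end Pool.Agent.Y783.CR
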