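import Pool.Agent.Y783.CR.Main
import Pool.Agent.Y783.CR.TwoFolk

/-!
# Chromatically related graphs: final form
-/

set_option autoImplicit false

namespace Pool.Agent.Y783.CR

open Pool.Agent.Results.MP_fbe9f6_co.BipartiteRelated

theorem fine_of_ram {U : Type*} [Nontrivial U] {F : SimpleGraph U} (h : Ram F) : Fine F := by
  rcases conn_or F with h1 | h1
  · exact Or.inl ⟨h1, h⟩
  · refine Or.inr ⟨h1, ram_compl ?_⟩
    rwa [compl_compl]

theorem ram_top {U : Type*} [Nontrivial U] : Ram (⊤ : SimpleGraph U) := nice_top.2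

theorem glue_side {U W₁ W₂ : Type*} {F : SimpleGraph U} (hF : Conn F) {H₁ : SimpleGraph W₁}
    {H₂ : SimpleGraph W₂} (f : F ↪g glue False H₁ H₂) :
    (∀ v, ∃ w, f v = Sum.inl w) ∨ ∀ v, ∃ w, f v = Sum.inr w := by
  by_cases hne : ∃ v w, f v = Sum.inl w
  · left
    refine hF.2 {v | ∃ w, f v = Sum.inl w} hne ?_
    intro x y hxy
    have h1 : (glue False H₁ H₂).Adj (f x) (f y) := f.map_adj_iff.2 hxy
    rcases hx : f x with a | a <;> rcases hy : f y with b | b
    · simp [hx, hy]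
    · rw [hx, hy] at h1
      exact h1.elim
    · rw [hx, hy] at h1
      exact h1.elim
    · simp [hx, hy]
  · right
    intro v
    rcases hv : f v with a | a
    · exact (hne ⟨v, a, hv⟩).elim
    · exact ⟨a, rfl⟩

theorem glue_not_mono {U W₁ W₂ κ : Type*} {F : SimpleGraph U} (hF : Conn F) {H₁ : SimpleGraph W₁}
    {H₂ : SimpleGraph W₂} {c₁ : W₁ → κ} {c₂ : W₂ → κ} (h₁ : ¬ Mono H₁ F c₁)
    (h₂ : ¬ Mono H₂ F c₂) : ¬ Mono (glue False H₁ H₂) F (Sum.elim c₁ c₂) := by
  rintro ⟨i, f, hf⟩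
  rcases glue_side hF f with h | h
  · choose g hg using h
    refine h₁ ⟨i, ⟨⟨g, ?_⟩, ?_⟩, ?_⟩
    · intro x y hxy
      refine f.injective ?_
      rw [hg x, hg y, hxy]
    · intro x y
      have h3 : (glue False H₁ H₂).Adj (f x) (f y) ↔ F.Adj x y := f.map_adj_iff
      rw [hg x, hg y] at h3
      exact h3
    · intro v
      have h3 := hf v
      rw [hg v] at h3
      exact h3
  · choose g hg using h
    refine h₂ ⟨i, ⟨⟨g, ?_⟩, ?_⟩, ?_⟩
    · intro x y hxy
      refine f.injective ?_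
      rw [hg x, hg y, hxy]
    · intro x y
      have h3 : (glue False H₁ H₂).Adj (f x) (f y) ↔ F.Adj x y := f.map_adj_iff
      rw [hg x, hg y] at h3
      exact h3
    · intro v
      have h3 := hf v
      rw [hg v] at h3
      exact h3

theorem related_of_common_nice {U V₁ V₂ : Type*} [Finite V₁] [Finite V₂] {F : SimpleGraph U}
    {G₁ : SimpleGraph V₁} {G₂ : SimpleGraph V₂} (hF : Nice F) (e₁ : F ↪g G₁) (e₂ : F ↪g G₂)
    (κ₁ : V₁ → Fin 2) (κ₂ : V₂ → Fin 2) (h₁ : ¬ Mono G₁ F κ₁) (h₂ : ¬ Mono G₂ F κ₂) :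
    ChromaticallyRelated G₁ G₂ := by
  intro l hl
  obtain ⟨r, hr, rfl⟩ : ∃ r, 1 ≤ r ∧ l = r + 1 := ⟨l - 1, by omega, by omega⟩
  have hκ := glue_not_mono hF.1 h₁ h₂
  obtain ⟨n, ε, G', he⟩ := exists_copy (glue False G₁ G₂)
  have f1 : glue False G₁ G₂ ↪g G' := ⟨ε.toEmbedding, fun {a b} => he a b⟩
  let f2 : G' ↪g glue False G₁ G₂ := ⟨ε.symm.toEmbedding, fun {a b} => by
    have h1 := he (ε.symm a) (ε.symm b)
    rw [ε.apply_symm_apply, ε.apply_symm_apply] at h1
    exact h1.symm⟩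
  have g1 : G₁ ↪g glue False G₁ G₂ := ⟨⟨Sum.inl, Sum.inl_injective⟩, fun {a b} => Iff.rfl⟩
  have g2 : G₂ ↪g glue False G₁ G₂ := ⟨⟨Sum.inr, Sum.inr_injective⟩, fun {a b} => Iff.rfl⟩
  obtain ⟨x0, -, -⟩ := hF.1.1
  have hne : Nonempty U := ⟨x0⟩
  have hne1 : Nonempty V₁ := ⟨e₁ x0⟩
  have hne2 : Nonempty V₂ := ⟨e₂ x0⟩
  have hκ' : ¬ Mono G' F (fun v => decide ((Sum.elim κ₁ κ₂) (ε.symm v) = 0)) := by
    rintro ⟨i, f, hf⟩
    refine hκ ⟨(Sum.elim κ₁ κ₂) (ε.symm (f x0)), f.trans f2, ?_⟩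
    intro v
    have h2 := (hf v).trans (hf x0).symm
    rw [decide_eq_decide] at h2
    have h3 : ∀ a b : Fin 2, (a = 0 ↔ b = 0) → a = b := by decide
    exact h3 _ _ h2
  obtain ⟨W, hW, H, ⟨p, hp⟩, hc⟩ := exists_graph hF.1 hF.2 G' _ hκ' hr
  exact ⟨W, hW, H, number_eq H G₁ (fun c => ((hc c).of_emb f1).of_emb g1)
      ⟨p, fun h => hp (h.of_emb e₁)⟩,
    number_eq H G₂ (fun c => ((hc c).of_emb f1).of_emb g2) ⟨p, fun h => hp (h.of_emb e₂)⟩⟩

/-- Two graphs that contain `F` and split into two sets without induced `F` are related. -/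
theorem related_of_common {U V₁ V₂ : Type*} [Nontrivial U] [Finite V₁] [Finite V₂]
    {F : SimpleGraph U} {G₁ : SimpleGraph V₁} {G₂ : SimpleGraph V₂} (hF : Ram F)
    (e₁ : Nonempty (F ↪g G₁)) (e₂ : Nonempty (F ↪g G₂))
    (h₁ : ∃ c : V₁ → Fin 2, IsFreeColoring G₁ F c) (h₂ : ∃ c : V₂ → Fin 2, IsFreeColoring G₂ F c) :
    ChromaticallyRelated G₁ G₂ := by
  obtain ⟨e₁⟩ := e₁
  obtain ⟨e₂⟩ := e₂
  obtain ⟨κ₁, h₁⟩ := h₁
  obtain ⟨κ₂, h₂⟩ := h₂
  rw [free_iff] at h₁ h₂
  rcases fine_of_ram hF with h | h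
  · exact related_of_common_nice h e₁ e₂ κ₁ κ₂ h₁ h₂
  · obtain ⟨e₁'⟩ := emb_compl e₁
    obtain ⟨e₂'⟩ := emb_compl e₂
    exact related_compl (related_of_common_nice h e₁' e₂' κ₁ κ₂
      (fun h => h₁ (mono_compl.1 h)) (fun h => h₂ (mono_compl.1 h)))

/-- Splitting a complete graph. -/
theorem top_split {V : Type*} [Finite V] [Nontrivial V] (n : ℕ) (G : SimpleGraph V) :
    (∃ c : Fin n → Fin 2, IsFreeColoring (⊤ : SimpleGraph (Fin n)) G c) ↔
      (G = ⊤ → n ≤ 2 * (Nat.card V - 1)) := by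
  classical
  have := Fintype.ofFinite V
  constructor
  · rintro ⟨c, hc⟩ rfl
    rw [free_iff] at hc
    by_contra hlt
    push Not at hlt
    have hcardV : 1 < Fintype.card V := Fintype.one_lt_card
    rw [Nat.card_eq_fintype_card] at hlt
    have : ∃ i ∈ (Finset.univ : Finset (Fin 2)),
        Fintype.card V - 1 < (Finset.univ.filter (fun w => c w = i)).card := by
      refine Finset.exists_lt_card_fiber_of_mul_lt_card_of_maps_to (fun _ _ => Finset.mem_univ _) ?_
      simpa using hlt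
    obtain ⟨i, -, hi⟩ := this
    have hcard : Fintype.card V ≤ Fintype.card (Finset.univ.filter (fun w => c w = i)) := by
      rw [Fintype.card_coe]
      omega
    obtain ⟨φ⟩ := Function.Embedding.nonempty_of_card_le hcard
    obtain ⟨ψ⟩ := top_emb (φ.trans (Function.Embedding.subtype _))
    refine hc ⟨i, ⟨⟨fun v => (φ v).1, fun a b hab => φ.injective (Subtype.ext hab)⟩, ?_⟩, ?_⟩
    · intro a b
      change (⊤ : SimpleGraph (Fin n)).Adj (φ a).1 (φ b).1 ↔ (⊤ : SimpleGraph V).Adj a b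
      rw [SimpleGraph.top_adj, SimpleGraph.top_adj]
      exact not_congr ⟨fun h => φ.injective (Subtype.ext h), fun h => by rw [h]⟩
    · intro v
      exact (Finset.mem_filter.1 (φ v).2).2
  · intro h
    by_cases hG : G = ⊤
    · have hn := h hG
      subst hG
      rw [Nat.card_eq_fintype_card] at hn
      have hcardV : 1 < Fintype.card V := Fintype.one_lt_card
      refine ⟨fun a => if a.1 < Fintype.card V - 1 then 0 else 1, ?_⟩
      rw [free_iff]
      rintro ⟨i, f, hf⟩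
      have hinj : Function.Injective (fun v => (f v).1 % (Fintype.card V - 1)) := by
        intro a b hab
        dsimp only at hab
        have ha : (if (f a).1 < Fintype.card V - 1 then (0 : Fin 2) else 1) = i := hf a
        have hb : (if (f b).1 < Fintype.card V - 1 then (0 : Fin 2) else 1) = i := hf b
        have ha2 := (f a).2
        have hb2 := (f b).2
        refine f.injective (Fin.ext ?_)
        by_cases h1 : (f a).1 < Fintype.card V - 1 <;> by_cases h2 : (f b).1 < Fintype.card V - 1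
        · rw [Nat.mod_eq_of_lt h1, Nat.mod_eq_of_lt h2] at hab
          exact hab
        · rw [if_pos h1] at ha
          rw [if_neg h2] at hb
          rw [← ha] at hb
          exact absurd hb (by decide)
        · rw [if_neg h1] at ha
          rw [if_pos h2] at hb
          rw [← ha] at hb
          exact absurd hb (by decide)
        · rw [Nat.mod_eq_sub_mod (by omega), Nat.mod_eq_of_lt (by omega),
            Nat.mod_eq_sub_mod (a := (f b).1) (by omega), Nat.mod_eq_of_lt (by omega)] at hab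
          omega
      have h3 := Fintype.card_le_of_injective
        (fun v => (⟨(f v).1 % (Fintype.card V - 1), Nat.mod_lt _ (by omega)⟩ :
          Fin (Fintype.card V - 1)))
        (fun a b hab => hinj (congrArg Fin.val hab))
      rw [Fintype.card_fin] at h3
      omega
    · refine ⟨fun _ => 0, ?_⟩
      rw [free_iff]
      rintro ⟨-, f, -⟩
      exact hG (eq_top_of_emb f)

end Pool.Agent.Y783.CR
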