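import Pool.Agent.Results.MP_fbe9f6_co.BipartiteRelated

/-!
# Monochromatic induced copies in graphs without a given induced subgraph

For a graph `F` without independent cutset the class of finite graphs without induced `F` has the
vertex Ramsey property (partite construction).
-/

set_option autoImplicit false

namespace Pool.Agent.Y783.CR

open Pool.Agent.Results.MP_fbe9f6_co.BipartiteRelated

/-- `F` has at least two vertices, and no set of pairwise non-adjacent vertices (possibly empty)
separates it: if `A` and `B` are disjoint nonempty sets of vertices without edges between them,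
then some edge avoids `A ∪ B`. -/
def Tight {U : Type*} (F : SimpleGraph U) : Prop :=
  Nontrivial U ∧ ∀ A B : Set U, A.Nonempty → B.Nonempty → (∀ x, x ∈ A → x ∉ B) →
    (∀ a ∈ A, ∀ b ∈ B, ¬ F.Adj a b) → ∃ x y, x ∉ A ∧ x ∉ B ∧ y ∉ A ∧ y ∉ B ∧ F.Adj x y

/-- Some induced copy of `G` in `H` has all its vertices of one colour. -/
def Mono {W V κ : Type*} (H : SimpleGraph W) (G : SimpleGraph V) (c : W → κ) : Prop :=
  ∃ (i : κ) (f : G ↪g H), ∀ v, c (f v) = i

theorem free_iff {W V κ : Type*} (H : SimpleGraph W) (G : SimpleGraph V) (c : W → κ) :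
    IsFreeColoring H G c ↔ ¬ Mono H G c := by
  constructor
  · rintro h ⟨i, f, hf⟩
    refine (h i).false ⟨⟨fun v => ⟨f v, hf v⟩, ?_⟩, ?_⟩
    · intro a b hab
      exact f.injective (by simpa using hab)
    · intro a b
      exact f.map_adj_iff
  · intro h i
    refine ⟨fun f => h ⟨i, ⟨⟨fun v => (f v).1, ?_⟩, ?_⟩, fun v => (f v).2⟩⟩
    · intro a b hab
      exact f.injective (Subtype.ext hab)
    · intro a b
      exact f.map_adj_iff

/-- `F` is connected and has at least two vertices. -/
def Conn {U : Type*} (F : SimpleGraph U) : Prop :=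
  Nontrivial U ∧ ∀ A : Set U, A.Nonempty → (∀ x y, F.Adj x y → (x ∈ A ↔ y ∈ A)) → ∀ x, x ∈ A

theorem Tight.connected {U : Type*} {F : SimpleGraph U} (hF : Tight F) (A : Set U)
    (hA : A.Nonempty) (h : ∀ x y, F.Adj x y → (x ∈ A ↔ y ∈ A)) : ∀ x, x ∈ A := by
  by_contra hcon
  push Not at hcon
  obtain ⟨b, hb⟩ := hcon
  obtain ⟨x, y, h1, h2, -⟩ := hF.2 A Aᶜ hA ⟨b, hb⟩ (fun x hx hx' => hx' hx)
    (fun a ha b hb hab => hb ((h a b hab).1 ha))
  exact h2 h1

theorem Tight.conn {U : Type*} {F : SimpleGraph U} (hF : Tight F) : Conn F :=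
  ⟨hF.1, hF.connected⟩

theorem Tight.exists_adj {U : Type*} {F : SimpleGraph U} (hF : Tight F) (x : U) :
    ∃ y, F.Adj x y := by
  by_contra hcon
  push Not at hcon
  have h := hF.connected {x} ⟨x, rfl⟩ (by
    intro a b hab
    constructor
    · intro ha
      rw [Set.mem_singleton_iff] at ha
      subst ha
      exact (hcon _ hab).elim
    · intro hb
      rw [Set.mem_singleton_iff] at hb
      subst hb
      exact (hcon _ hab.symm).elim)
  obtain ⟨a, b, hab⟩ := hF.1
  have ha := h a
  have hb := h b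
  rw [Set.mem_singleton_iff] at ha hb
  exact hab (ha.trans hb.symm)

/-- Disjoint copies of `G`, one for each element of `I`. -/
def copies (I : Type*) {V : Type*} (G : SimpleGraph V) : SimpleGraph (I × V) where
  Adj a b := a.1 = b.1 ∧ G.Adj a.2 b.2
  symm := ⟨fun _ _ h => ⟨h.1.symm, h.2.symm⟩⟩
  loopless := ⟨fun _ h => h.2.ne rfl⟩

theorem copies_free {I U V : Type*} {F : SimpleGraph U} (hF : Conn F) {G : SimpleGraph V}
    (hG : IsEmpty (F ↪g G)) : IsEmpty (F ↪g copies I G) := by
  refine ⟨fun f => ?_⟩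
  obtain ⟨x0, -, -⟩ := hF.1
  have h := hF.2 {x | (f x).1 = (f x0).1} ⟨x0, rfl⟩ (by
    intro a b hab
    have h1 : (copies I G).Adj (f a) (f b) := f.map_adj_iff.2 hab
    have h2 : (f a).1 = (f b).1 := h1.1
    simp only [Set.mem_ofPred_eq]
    rw [h2])
  refine hG.false ⟨⟨fun x => (f x).2, ?_⟩, ?_⟩
  · intro a b hab
    refine f.injective (Prod.ext ?_ hab)
    exact (h a).trans (h b).symm
  · intro a b
    constructor
    · intro hab
      exact f.map_adj_iff.1 ⟨(h a).trans (h b).symm, hab⟩
    · intro hab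
      have h1 : (copies I G).Adj (f a) (f b) := f.map_adj_iff.2 hab
      exact h1.2

/-- Pigeonhole principle. -/
theorem pigeon {r : ℕ} (hr : 1 ≤ r) (T : Type*) [Finite T] (c : Fin r × T → Fin r) :
    ∃ (i : Fin r) (e : T ↪ Fin r × T), ∀ t, c (e t) = i := by
  classical
  have := Fintype.ofFinite T
  have hne : Nonempty (Fin r) := ⟨⟨0, hr⟩⟩
  have : ∃ i ∈ (Finset.univ : Finset (Fin r)),
      Fintype.card T ≤ (Finset.univ.filter (fun w => c w = i)).card := by
    refine Finset.exists_le_card_fiber_of_mul_le_card_of_maps_to (fun _ _ => Finset.mem_univ _)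
      Finset.univ_nonempty ?_
    simp
  obtain ⟨i, -, hi⟩ := this
  have hcard : Fintype.card T ≤ Fintype.card (Finset.univ.filter (fun w => c w = i)) := by
    rw [Fintype.card_coe]
    exact hi
  obtain ⟨φ⟩ := Function.Embedding.nonempty_of_card_le hcard
  refine ⟨i, ⟨fun t => (φ t).1, ?_⟩, fun t => (Finset.mem_filter.1 (φ t).2).2⟩
  intro a b hab
  exact φ.injective (Subtype.ext hab)

section Amalgam

variable {P ι : Type} (K : SimpleGraph P) (π : P → ι) (j : ι) (X : Type)

/-- Free amalgam of copies of `K`, one for each injection of the part `j` into `X`. -/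
def amalg : SimpleGraph (X ⊕ (({x // π x = j} ↪ X) × {x // π x ≠ j})) where
  Adj a b := match a, b with
    | Sum.inl _, Sum.inl _ => False
    | Sum.inl x, Sum.inr p => ∃ u : {x // π x = j}, p.1 u = x ∧ K.Adj u.1 p.2.1
    | Sum.inr p, Sum.inl x => ∃ u : {x // π x = j}, p.1 u = x ∧ K.Adj u.1 p.2.1
    | Sum.inr p, Sum.inr q => p.1 = q.1 ∧ K.Adj p.2.1 q.2.1
  symm := ⟨by
    rintro (x | p) (y | q) h
    · exact h
    · exact h
    · exact h
    · exact ⟨h.1.symm, h.2.symm⟩⟩
  loopless := ⟨by
    rintro (x | p) h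
    · exact h
    · exact h.2.ne rfl⟩

variable {K π j X}

open Classical in
/-- The copy of `K` belonging to the injection `e`. -/
noncomputable def copyMap (e : {x // π x = j} ↪ X) (x : P) :
    X ⊕ (({x // π x = j} ↪ X) × {x // π x ≠ j}) :=
  if h : π x = j then Sum.inl (e ⟨x, h⟩) else Sum.inr (e, ⟨x, h⟩)

theorem copyMap_pos (e : {x // π x = j} ↪ X) {x : P} (h : π x = j) :
    copyMap e x = Sum.inl (e ⟨x, h⟩) := dif_pos h

theorem copyMap_neg (e : {x // π x = j} ↪ X) {x : P} (h : ¬ π x = j) :
    copyMap e x = Sum.inr (e, ⟨x, h⟩) := dif_neg h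

theorem copyMap_injective (e : {x // π x = j} ↪ X) : Function.Injective (copyMap e) := by
  intro x y hxy
  by_cases hx : π x = j <;> by_cases hy : π y = j
  · rw [copyMap_pos e hx, copyMap_pos e hy] at hxy
    have := e.injective (Sum.inl_injective hxy)
    exact congrArg Subtype.val this
  · rw [copyMap_pos e hx, copyMap_neg e hy] at hxy
    exact (Sum.inl_ne_inr hxy).elim
  · rw [copyMap_neg e hx, copyMap_pos e hy] at hxy
    exact (Sum.inr_ne_inl hxy).elim
  · rw [copyMap_neg e hx, copyMap_neg e hy] at hxy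
    have := congrArg Prod.snd (Sum.inr_injective hxy)
    exact congrArg Subtype.val this

theorem copyMap_adj (hpart : ∀ x y, π x = π y → ¬ K.Adj x y) (e : {x // π x = j} ↪ X) (x y : P) :
    (amalg K π j X).Adj (copyMap e x) (copyMap e y) ↔ K.Adj x y := by
  by_cases hx : π x = j <;> by_cases hy : π y = j
  · rw [copyMap_pos e hx, copyMap_pos e hy]
    constructor
    · intro h
      exact h.elim
    · intro h
      exact (hpart x y (hx.trans hy.symm) h).elim
  · rw [copyMap_pos e hx, copyMap_neg e hy]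
    constructor
    · rintro ⟨u, hu, hadj⟩
      have := e.injective hu
      subst this
      exact hadj
    · intro h
      exact ⟨⟨x, hx⟩, rfl, h⟩
  · rw [copyMap_neg e hx, copyMap_pos e hy]
    constructor
    · rintro ⟨u, hu, hadj⟩
      have := e.injective hu
      subst this
      exact hadj.symm
    · intro h
      exact ⟨⟨y, hy⟩, rfl, h.symm⟩
  · rw [copyMap_neg e hx, copyMap_neg e hy]
    constructor
    · intro h
      exact h.2
    · intro h
      exact ⟨rfl, h⟩

theorem amalg_free {U : Type*} {F : SimpleGraph U} (hF : Tight F)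
    (hpart : ∀ x y, π x = π y → ¬ K.Adj x y) (hK : IsEmpty (F ↪g K)) :
    IsEmpty (F ↪g amalg K π j X) := by
  classical
  refine ⟨fun f => ?_⟩
  -- a vertex outside `X`
  have h0 : ∃ (v0 : U) (p0 : ({x // π x = j} ↪ X) × {x // π x ≠ j}), f v0 = Sum.inr p0 := by
    by_contra hcon
    push Not at hcon
    obtain ⟨x0, -, -⟩ := hF.1
    obtain ⟨y0, h0⟩ := hF.exists_adj x0
    have h1 : (amalg K π j X).Adj (f x0) (f y0) := f.map_adj_iff.2 h0
    rcases hx : f x0 with x | p
    · rcases hy : f y0 with y | q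
      · rw [hx, hy] at h1
        exact h1
      · exact hcon _ _ hy
    · exact hcon _ _ hx
  obtain ⟨v0, ⟨e0, w0⟩, hv0⟩ := h0
  -- all vertices outside `X` belong to the copy `e0`
  have hcomp : ∀ v (p : ({x // π x = j} ↪ X) × {x // π x ≠ j}), f v = Sum.inr p → p.1 = e0 := by
    by_contra hcon
    push Not at hcon
    obtain ⟨v1, p1, hv1, hp1⟩ := hcon
    obtain ⟨x, y, hxA, hxB, hyA, hyB, hxy⟩ := hF.2
      {v | ∃ p : ({x // π x = j} ↪ X) × {x // π x ≠ j}, f v = Sum.inr p ∧ p.1 = e0}
      {v | ∃ p : ({x // π x = j} ↪ X) × {x // π x ≠ j}, f v = Sum.inr p ∧ p.1 ≠ e0}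
      ⟨v0, _, hv0, rfl⟩ ⟨v1, _, hv1, hp1⟩
      (by
        rintro x ⟨p, hp, hpe⟩ ⟨q, hq, hqe⟩
        rw [hp] at hq
        have := Sum.inr_injective hq
        subst this
        exact hqe hpe)
      (by
        rintro a ⟨p, hp, hpe⟩ b ⟨q, hq, hqe⟩ hab
        have h1 : (amalg K π j X).Adj (f a) (f b) := f.map_adj_iff.2 hab
        rw [hp, hq] at h1
        exact hqe (h1.1.symm.trans hpe))
    have h1 : (amalg K π j X).Adj (f x) (f y) := f.map_adj_iff.2 hxy
    rcases hfx : f x with x' | p
    · rcases hfy : f y with y' | q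
      · rw [hfx, hfy] at h1
        exact h1
      · by_cases hq : q.1 = e0
        · exact hyA ⟨q, hfy, hq⟩
        · exact hyB ⟨q, hfy, hq⟩
    · by_cases hp : p.1 = e0
      · exact hxA ⟨p, hfx, hp⟩
      · exact hxB ⟨p, hfx, hp⟩
  -- so everything lies in the copy `e0`
  have hrange : ∀ v, ∃ x, copyMap e0 x = f v := by
    intro v
    rcases hfv : f v with x | p
    · obtain ⟨w, hw⟩ := hF.exists_adj v
      have h1 : (amalg K π j X).Adj (f v) (f w) := f.map_adj_iff.2 hw
      rcases hfw : f w with y | q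
      · rw [hfv, hfw] at h1
        exact h1.elim
      · rw [hfv, hfw] at h1
        obtain ⟨u, hu, -⟩ := h1
        have hq := hcomp w q hfw
        rw [hq] at hu
        refine ⟨u.1, ?_⟩
        rw [copyMap_pos e0 u.2, ← hu]
    · have hp := hcomp v p hfv
      refine ⟨p.2.1, ?_⟩
      rw [copyMap_neg e0 p.2.2, ← hp]
  choose g hg using hrange
  refine hK.false ⟨⟨g, ?_⟩, ?_⟩
  · intro a b hab
    refine f.injective ?_
    rw [← hg a, ← hg b, hab]
  · intro a b
    have h1 := copyMap_adj hpart e0 (g a) (g b)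
    rw [hg a, hg b] at h1
    exact h1.symm.trans f.map_adj_iff

end Amalgam

/-- The partite construction. -/
theorem partite {U : Type*} {F : SimpleGraph U} (hF : Tight F) {r : ℕ} (hr : 1 ≤ r) {ι : Type}
    {P : Type} [Finite P] (K : SimpleGraph P) (π : P → ι)
    (hpart : ∀ x y, π x = π y → ¬ K.Adj x y) (hK : IsEmpty (F ↪g K)) (J : Finset ι) :
    ∃ (P' : Type) (_ : Finite P') (K' : SimpleGraph P') (π' : P' → ι),
      (∀ x y, π' x = π' y → ¬ K'.Adj x y) ∧ IsEmpty (F ↪g K') ∧
      ∀ c : P' → Fin r, ∃ f : K ↪g K', (∀ x, π' (f x) = π x) ∧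
        ∀ x y, π x = π y → π x ∈ J → c (f x) = c (f y) := by
  classical
  induction J using Finset.induction_on with
  | empty =>
    refine ⟨P, inferInstance, K, π, hpart, hK, fun c => ⟨SimpleGraph.Embedding.refl, ?_, ?_⟩⟩
    · intro x
      rfl
    · intro x y _ h
      exact absurd h (Finset.notMem_empty _)
  | insert j J _ ih =>
    obtain ⟨P', hP', K', π', hpart', hK', hc'⟩ := ih
    let X : Type := Fin r × {x // π' x = j}
    refine ⟨X ⊕ (({x // π' x = j} ↪ X) × {x // π' x ≠ j}), inferInstance, amalg K' π' j X,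
      Sum.elim (fun _ => j) (fun p => π' p.2.1), ?_, amalg_free hF hpart' hK', ?_⟩
    · rintro (x | p) (y | q) hxy hadj
      · exact hadj
      · exact q.2.2 hxy.symm
      · exact p.2.2 hxy
      · exact hpart' _ _ hxy hadj.2
    · intro c
      obtain ⟨i, e, he⟩ := pigeon hr {x // π' x = j} (fun x => c (Sum.inl x))
      obtain ⟨f, hf1, hf2⟩ := hc' (fun x => c (copyMap e x))
      refine ⟨⟨⟨fun x => copyMap e (f x), ?_⟩, ?_⟩, ?_, ?_⟩
      · intro a b hab
        exact f.injective (copyMap_injective e hab)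
      · intro a b
        exact (copyMap_adj hpart' e _ _).trans f.map_adj_iff
      · intro x
        change Sum.elim (fun _ => j) (fun p => π' p.2.1) (copyMap e (f x)) = π x
        by_cases h : π' (f x) = j
        · rw [copyMap_pos e h]
          exact h.symm.trans (hf1 x)
        · rw [copyMap_neg e h]
          exact hf1 x
      · intro x y hxy hx
        change c (copyMap e (f x)) = c (copyMap e (f y))
        rw [Finset.mem_insert] at hx
        rcases hx with hx | hx
        · have h1 : π' (f x) = j := (hf1 x).trans hx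
          have h2 : π' (f y) = j := (hf1 y).trans (hxy.symm.trans hx)
          rw [copyMap_pos e h1, copyMap_pos e h2, he, he]
        · exact hf2 x y hxy hx

/-- **Vertex Ramsey property.** If `F` has no independent cutset and `G` is a finite graph without
induced `F`, then some finite graph `K` without induced `F` has an induced copy of `G` of one
colour in every colouring of its vertices with `r` colours. -/
theorem folkman {U : Type*} {V : Type} [Finite V] {F : SimpleGraph U} (hF : Tight F)
    (G : SimpleGraph V) (hG : IsEmpty (F ↪g G)) {r : ℕ} (hr : 1 ≤ r) :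
    ∃ (R : Type) (_ : Finite R) (K : SimpleGraph R), IsEmpty (F ↪g K) ∧
      ∀ c : R → Fin r, Mono K G c := by
  classical
  let ι : Type := Fin r × V
  have := Fintype.ofFinite V
  obtain ⟨R, hR, K, π', -, hK, hc⟩ := partite hF hr (copies (V ↪ ι) G)
    (fun x : (V ↪ ι) × V => x.1 x.2) (by
      rintro ⟨e, u⟩ ⟨e', v⟩ hxy ⟨h1, h2⟩
      dsimp only at hxy h1 h2
      subst h1
      exact h2.ne (e.injective hxy)) (copies_free hF.conn hG) (Finset.univ : Finset ι)
  refine ⟨R, hR, K, hK, fun c => ?_⟩
  obtain ⟨f, -, hf⟩ := hc c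
  let d : ι → Fin r := fun i => if h : ∃ x : (V ↪ ι) × V, x.1 x.2 = i then c (f h.choose)
    else ⟨0, hr⟩
  obtain ⟨i, e, he⟩ := pigeon hr V d
  refine ⟨i, ⟨⟨fun v => f (e, v), ?_⟩, ?_⟩, ?_⟩
  · intro a b hab
    have h1 : ((e, a) : (V ↪ ι) × V) = (e, b) := f.injective hab
    exact congrArg Prod.snd h1
  · intro a b
    refine f.map_adj_iff.trans ?_
    constructor
    · intro h
      exact h.2
    · intro h
      exact ⟨rfl, h⟩
  · intro v
    have hex : ∃ x : (V ↪ ι) × V, x.1 x.2 = e v := ⟨(e, v), rfl⟩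
    have h1 : d (e v) = c (f hex.choose) := dif_pos hex
    rw [he v] at h1
    rw [h1]
    refine (hf hex.choose (e, v) hex.choose_spec (Finset.mem_univ _)).symm

end Pool.Agent.Y783.CR
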