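import Pool.Agent.Y783.CR.Folkman

/-!
# Sparse uniform hypergraphs with the vertex Ramsey property

For all finite sets `S` and all `n`, `r` there is a finite hypergraph whose edges are copies of `S`,
in which any family of between `2` and `n` edges has two leaves, and such that every colouring of
the vertices with `r` colours has an edge of one colour.
-/

set_option autoImplicit false

namespace Pool.Agent.Y783.CR

/-- The edge `e` meets the union of the other edges of the family in at most one vertex. -/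
def Leaf {X E : Type*} (m : E → Set X) (𝓔 : Finset E) (e : E) : Prop :=
  ∀ x y, x ∈ m e → y ∈ m e → (∃ d ∈ 𝓔, d ≠ e ∧ x ∈ m d) → (∃ d ∈ 𝓔, d ≠ e ∧ y ∈ m d) → x = y

/-- Every family of between `2` and `n` edges has two leaves. -/
def Sparse {X E : Type*} (m : E → Set X) (n : ℕ) : Prop :=
  ∀ 𝓔 : Finset E, 2 ≤ 𝓔.card → 𝓔.card ≤ n →
    ∃ e ∈ 𝓔, ∃ e' ∈ 𝓔, e ≠ e' ∧ Leaf m 𝓔 e ∧ Leaf m 𝓔 e'

/-- Existence of sparse Ramsey hypergraphs. -/
def HG (n : ℕ) : Prop :=
  ∀ (S : Type) [Finite S] (r : ℕ), 1 ≤ r → ∃ (X : Type) (_ : Finite X) (E : Type) (_ : Finite E)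
    (m : E → S ↪ X), Sparse (fun e => Set.range (m e)) n ∧
      ∀ c : X → Fin r, ∃ (e : E) (i : Fin r), ∀ s, c (m e s) = i

theorem hg_zero : HG 0 := by
  intro S _ r hr
  refine ⟨Fin r × S, inferInstance, S ↪ Fin r × S, inferInstance, fun e => e, ?_, ?_⟩
  · intro 𝓔 h1 h2
    omega
  · intro c
    obtain ⟨i, e, he⟩ := pigeon hr S c
    exact ⟨e, i, he⟩

section Amalgam

variable {P ι X EX : Type} (π : P → ι) (j : ι) (mX : EX → {x // π x = j} ↪ X)

open Classical in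
/-- The copy of `P` belonging to `ε`. -/
noncomputable def cMap (ε : EX) (x : P) : X ⊕ (EX × {x // π x ≠ j}) :=
  if h : π x = j then Sum.inl (mX ε ⟨x, h⟩) else Sum.inr (ε, ⟨x, h⟩)

variable {π j mX}

theorem cMap_pos (ε : EX) {x : P} (h : π x = j) :
    cMap π j mX ε x = Sum.inl (mX ε ⟨x, h⟩) := dif_pos h

theorem cMap_neg (ε : EX) {x : P} (h : ¬ π x = j) :
    cMap π j mX ε x = Sum.inr (ε, ⟨x, h⟩) := dif_neg h

theorem cMap_injective (ε : EX) : Function.Injective (cMap π j mX ε) := by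
  intro x y hxy
  by_cases hx : π x = j <;> by_cases hy : π y = j
  · rw [cMap_pos ε hx, cMap_pos ε hy] at hxy
    have := (mX ε).injective (Sum.inl_injective hxy)
    exact congrArg Subtype.val this
  · rw [cMap_pos ε hx, cMap_neg ε hy] at hxy
    exact (Sum.inl_ne_inr hxy).elim
  · rw [cMap_neg ε hx, cMap_pos ε hy] at hxy
    exact (Sum.inr_ne_inl hxy).elim
  · rw [cMap_neg ε hx, cMap_neg ε hy] at hxy
    have := congrArg Prod.snd (Sum.inr_injective hxy)
    exact congrArg Subtype.val this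

/-- Points in two copies lie in the common part. -/
theorem cMap_common {ε ε' : EX} (hne : ε ≠ ε') {a b : P}
    (h : cMap π j mX ε a = cMap π j mX ε' b) :
    ∃ (ha : π a = j) (hb : π b = j), mX ε ⟨a, ha⟩ = mX ε' ⟨b, hb⟩ := by
  by_cases hx : π a = j <;> by_cases hy : π b = j
  · rw [cMap_pos ε hx, cMap_pos ε' hy] at h
    exact ⟨hx, hy, Sum.inl_injective h⟩
  · rw [cMap_pos ε hx, cMap_neg ε' hy] at h
    exact (Sum.inl_ne_inr h).elim
  · rw [cMap_neg ε hx, cMap_pos ε' hy] at h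
    exact (Sum.inr_ne_inl h).elim
  · rw [cMap_neg ε hx, cMap_neg ε' hy] at h
    exact (hne (congrArg Prod.fst (Sum.inr_injective h))).elim

variable (π j mX) in
/-- The part of a point of the amalgam. -/
def newPart : X ⊕ (EX × {x // π x ≠ j}) → ι := Sum.elim (fun _ => j) (fun p => π p.2.1)

theorem newPart_cMap (ε : EX) (x : P) : newPart π j (cMap π j mX ε x) = π x := by
  by_cases h : π x = j
  · rw [cMap_pos ε h]
    exact h.symm
  · rw [cMap_neg ε h]
    rfl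

variable {S E : Type} (m : E → S ↪ P)

/-- The edges of the amalgam. -/
noncomputable def newEdge (p : EX × E) : S ↪ X ⊕ (EX × {x // π x ≠ j}) :=
  ⟨fun s => cMap π j mX p.1 (m p.2 s), fun _ _ h => (m p.2).injective (cMap_injective p.1 h)⟩

variable {m}

theorem mem_newEdge {p : EX × E} {x : X ⊕ (EX × {x // π x ≠ j})} :
    x ∈ Set.range (newEdge (mX := mX) m p) ↔
      ∃ a ∈ Set.range (m p.2), cMap π j mX p.1 a = x := by
  constructor
  · rintro ⟨s, rfl⟩
    exact ⟨m p.2 s, ⟨s, rfl⟩, rfl⟩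
  · rintro ⟨a, ⟨s, rfl⟩, rfl⟩
    exact ⟨s, rfl⟩

open Classical in
/-- The edges of the family in the copy `ε`. -/
noncomputable def slice (𝓔 : Finset (EX × E)) (ε : EX) : Finset E :=
  (𝓔.filter (fun p => p.1 = ε)).image Prod.snd

open Classical in
theorem mem_slice {𝓔 : Finset (EX × E)} {ε : EX} {e : E} : e ∈ slice 𝓔 ε ↔ (ε, e) ∈ 𝓔 := by
  unfold slice
  rw [Finset.mem_image]
  constructor
  · rintro ⟨⟨ε', e'⟩, hp, rfl⟩
    rw [Finset.mem_filter] at hp
    obtain ⟨h1, h2⟩ := hp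
    dsimp only at h2
    rw [← h2]
    exact h1
  · intro h
    exact ⟨(ε, e), Finset.mem_filter.2 ⟨h, rfl⟩, rfl⟩

theorem slice_card_le (𝓔 : Finset (EX × E)) (ε : EX) : (slice 𝓔 ε).card ≤ 𝓔.card := by
  classical
  unfold slice
  exact Finset.card_image_le.trans (Finset.card_filter_le _ _)

/-- A leaf of the slice whose contacts with other copies are also contacts inside the slice is a
leaf of the family. -/
theorem leaf_of_slice {𝓔 : Finset (EX × E)} {ε : EX} {e : E}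
    (hle : Leaf (fun e => Set.range (m e)) (slice 𝓔 ε) e)
    (h : ∀ z, z ∈ Set.range (m e) → (∃ p ∈ 𝓔, p.1 ≠ ε ∧
      cMap π j mX ε z ∈ Set.range (newEdge (mX := mX) m p)) →
      ∃ d ∈ slice 𝓔 ε, d ≠ e ∧ z ∈ Set.range (m d)) :
    Leaf (fun p => Set.range (newEdge (mX := mX) m p)) 𝓔 (ε, e) := by
  intro x y hx hy hxd hyd
  dsimp only at hx hy hxd hyd
  rw [mem_newEdge] at hx hy
  obtain ⟨a, ha, rfl⟩ := hx
  obtain ⟨b, hb, rfl⟩ := hy
  dsimp only at ha hb
  have key : ∀ z, z ∈ Set.range (m e) →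
      (∃ d ∈ 𝓔, d ≠ (ε, e) ∧ cMap π j mX ε z ∈ Set.range (newEdge (mX := mX) m d)) →
      ∃ d ∈ slice 𝓔 ε, d ≠ e ∧ z ∈ Set.range (m d) := by
    rintro z hz ⟨⟨ε', d⟩, hd, hne, hzd⟩
    by_cases hε : ε' = ε
    · subst hε
      refine ⟨d, mem_slice.2 hd, fun h' => hne (by rw [h']), ?_⟩
      rw [mem_newEdge] at hzd
      obtain ⟨w, hw, hwz⟩ := hzd
      rw [← cMap_injective _ hwz]
      exact hw
    · exact h z hz ⟨(ε', d), hd, hε, hzd⟩
  rw [hle a b ha hb (key a ha hxd) (key b hb hyd)]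

/-- A copy that is a leaf among the copies contains a leaf. -/
theorem exists_leaf_in_copy [DecidableEq EX] {n : ℕ}
    (hT : ∀ e s s', π (m e s) = π (m e s') → s = s')
    (hSp : Sparse (fun e => Set.range (m e)) (n + 1)) {𝓔 : Finset (EX × E)}
    (hcard : 𝓔.card ≤ n + 1) {ε : EX} (hε : ε ∈ 𝓔.image Prod.fst)
    (h : Leaf (fun ε => Set.range (mX ε)) (𝓔.image Prod.fst) ε ∨ (slice 𝓔 ε).card ≤ 1) :
    ∃ e, (ε, e) ∈ 𝓔 ∧ Leaf (fun p => Set.range (newEdge (mX := mX) m p)) 𝓔 (ε, e) := by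
  classical
  have hne : ∃ e, e ∈ slice 𝓔 ε := by
    rw [Finset.mem_image] at hε
    obtain ⟨⟨ε', e⟩, hp, rfl⟩ := hε
    exact ⟨e, mem_slice.2 hp⟩
  by_cases h1 : (slice 𝓔 ε).card ≤ 1
  · obtain ⟨e, he⟩ := hne
    have honly : ∀ d ∈ slice 𝓔 ε, d = e := fun d hd => Finset.card_le_one.1 h1 d hd e he
    refine ⟨e, mem_slice.1 he, ?_⟩
    intro x y hx hy hxd hyd
    dsimp only at hx hy hxd hyd
    rw [mem_newEdge] at hx hy
    obtain ⟨a, ⟨s, rfl⟩, rfl⟩ := hx
    obtain ⟨b, ⟨s', rfl⟩, rfl⟩ := hy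
    dsimp only at hxd hyd ⊢
    have key : ∀ z, (∃ d ∈ 𝓔, d ≠ (ε, e) ∧
        cMap π j mX ε z ∈ Set.range (newEdge (mX := mX) m d)) → π z = j := by
      rintro z ⟨⟨ε', d⟩, hd, hne', hzd⟩
      have hεne : ε ≠ ε' := by
        rintro rfl
        exact hne' (by rw [honly d (mem_slice.2 hd)])
      rw [mem_newEdge] at hzd
      obtain ⟨w, -, hw⟩ := hzd
      obtain ⟨hz, -, -⟩ := cMap_common hεne hw.symm
      exact hz
    have h2 := hT e s s' ((key _ hxd).trans (key _ hyd).symm)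
    rw [h2]
  · have hleafε := h.resolve_right h1
    obtain ⟨e₁, he₁, e₂, he₂, hne12, hl₁, hl₂⟩ := hSp (slice 𝓔 ε) (by omega)
      ((slice_card_le 𝓔 ε).trans hcard)
    -- contacts with other copies are unique
    have huniq : ∀ z z', (∃ p ∈ 𝓔, p.1 ≠ ε ∧
        cMap π j mX ε z ∈ Set.range (newEdge (mX := mX) m p)) →
        (∃ p ∈ 𝓔, p.1 ≠ ε ∧ cMap π j mX ε z' ∈ Set.range (newEdge (mX := mX) m p)) →
        z = z' := by
      have h3 : ∀ z, (∃ p ∈ 𝓔, p.1 ≠ ε ∧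
          cMap π j mX ε z ∈ Set.range (newEdge (mX := mX) m p)) →
          ∃ (hz : π z = j), ∃ d ∈ 𝓔.image Prod.fst, d ≠ ε ∧
            mX ε ⟨z, hz⟩ ∈ Set.range (mX d) := by
        rintro z ⟨⟨ε', d⟩, hp, hpε, hzp⟩
        rw [mem_newEdge] at hzp
        obtain ⟨w, -, hw⟩ := hzp
        obtain ⟨hz, hw', hzw⟩ := cMap_common (Ne.symm hpε) hw.symm
        exact ⟨hz, ε', Finset.mem_image.2 ⟨_, hp, rfl⟩, hpε, ⟨⟨w, hw'⟩, hzw.symm⟩⟩
      intro z z' hz hz'
      obtain ⟨hz1, hz2⟩ := h3 z hz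
      obtain ⟨hz1', hz2'⟩ := h3 z' hz'
      have h4 := hleafε _ _ ⟨⟨z, hz1⟩, rfl⟩ ⟨⟨z', hz1'⟩, rfl⟩ hz2 hz2'
      exact congrArg Subtype.val ((mX ε).injective h4)
    by_cases hcase : ∃ z, z ∈ Set.range (m e₁) ∧ z ∉ Set.range (m e₂) ∧ ∃ p ∈ 𝓔, p.1 ≠ ε ∧
        cMap π j mX ε z ∈ Set.range (newEdge (mX := mX) m p)
    · obtain ⟨z, hz1, hz2, hz3⟩ := hcase
      refine ⟨e₂, mem_slice.1 he₂, leaf_of_slice hl₂ ?_⟩
      intro z' hz' hz'3
      rw [huniq z' z hz'3 hz3] at hz'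
      exact (hz2 hz').elim
    · push Not at hcase
      refine ⟨e₁, mem_slice.1 he₁, leaf_of_slice hl₁ ?_⟩
      rintro z' hz' ⟨p, hp, hpε, hzp⟩
      refine ⟨e₂, he₂, hne12.symm, ?_⟩
      by_contra hcon
      exact hcase z' hz' hcon p hp hpε hzp

theorem sparse_amalg {n : ℕ} (hX : Sparse (fun ε => Set.range (mX ε)) n)
    (hT : ∀ e s s', π (m e s) = π (m e s') → s = s')
    (hSp : Sparse (fun e => Set.range (m e)) (n + 1)) :
    Sparse (fun p => Set.range (newEdge (mX := mX) m p)) (n + 1) := by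
  classical
  intro 𝓔 h2 hn
  have hcle : (𝓔.image Prod.fst).card ≤ 𝓔.card := Finset.card_image_le
  by_cases hc1 : (𝓔.image Prod.fst).card ≤ 1
  · -- a single copy
    have hne : 𝓔.Nonempty := Finset.card_pos.1 (by omega)
    obtain ⟨⟨ε, e0⟩, he0⟩ := hne
    have hall : ∀ p ∈ 𝓔, p.1 = ε := fun p hp =>
      Finset.card_le_one.1 hc1 p.1 (Finset.mem_image.2 ⟨p, hp, rfl⟩) ε
        (Finset.mem_image.2 ⟨_, he0, rfl⟩)
    have hcard : (slice 𝓔 ε).card = 𝓔.card := by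
      unfold slice
      rw [Finset.filter_true_of_mem hall]
      refine Finset.card_image_of_injOn ?_
      rintro ⟨a, b⟩ ha ⟨a', b'⟩ ha' hab
      have h3 := hall _ ha
      have h4 := hall _ ha'
      dsimp only at h3 h4 hab
      rw [h3, h4, hab]
    obtain ⟨e₁, he₁, e₂, he₂, hne12, hl₁, hl₂⟩ := hSp (slice 𝓔 ε) (by omega) (by omega)
    refine ⟨(ε, e₁), mem_slice.1 he₁, (ε, e₂), mem_slice.1 he₂,
      fun h => hne12 (congrArg Prod.snd h), leaf_of_slice hl₁ ?_, leaf_of_slice hl₂ ?_⟩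
    · rintro z - ⟨p, hp, hpε, -⟩
      exact (hpε (hall p hp)).elim
    · rintro z - ⟨p, hp, hpε, -⟩
      exact (hpε (hall p hp)).elim
  · push Not at hc1
    by_cases hcn : (𝓔.image Prod.fst).card ≤ n
    · obtain ⟨ε₁, hε₁, ε₂, hε₂, hne, hl₁, hl₂⟩ := hX (𝓔.image Prod.fst) hc1 hcn
      obtain ⟨e₁, he₁, hle₁⟩ := exists_leaf_in_copy hT hSp hn hε₁ (Or.inl hl₁)
      obtain ⟨e₂, he₂, hle₂⟩ := exists_leaf_in_copy hT hSp hn hε₂ (Or.inl hl₂)
      exact ⟨(ε₁, e₁), he₁, (ε₂, e₂), he₂, fun h => hne (congrArg Prod.fst h), hle₁, hle₂⟩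
    · have hinj : Set.InjOn Prod.fst (𝓔 : Set (EX × E)) := by
        rw [← Finset.card_image_iff]
        omega
      have hsl : ∀ ε, (slice 𝓔 ε).card ≤ 1 := by
        intro ε
        rw [Finset.card_le_one]
        intro a ha b hb
        rw [mem_slice] at ha hb
        exact congrArg Prod.snd (hinj ha hb rfl)
      obtain ⟨ε₁, hε₁, ε₂, hε₂, hne⟩ := Finset.one_lt_card.1 hc1
      obtain ⟨e₁, he₁, hle₁⟩ := exists_leaf_in_copy hT hSp hn hε₁ (Or.inr (hsl ε₁))
      obtain ⟨e₂, he₂, hle₂⟩ := exists_leaf_in_copy hT hSp hn hε₂ (Or.inr (hsl ε₂))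
      exact ⟨(ε₁, e₁), he₁, (ε₂, e₂), he₂, fun h => hne (congrArg Prod.fst h), hle₁, hle₂⟩

end Amalgam

/-- The partite construction for hypergraphs. -/
theorem partiteH {n : ℕ} (hHG : HG n) {r : ℕ} (hr : 1 ≤ r) {S ι P E : Type} [Finite P] [Finite E]
    (π : P → ι) (m : E → S ↪ P) (hT : ∀ e s s', π (m e s) = π (m e s') → s = s')
    (hSp : Sparse (fun e => Set.range (m e)) (n + 1)) (J : Finset ι) :
    ∃ (P' : Type) (_ : Finite P') (E' : Type) (_ : Finite E') (π' : P' → ι) (m' : E' → S ↪ P'),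
      (∀ e s s', π' (m' e s) = π' (m' e s') → s = s') ∧
      Sparse (fun e => Set.range (m' e)) (n + 1) ∧
      ∀ c : P' → Fin r, ∃ (f : P → P') (g : E → E'), (∀ x, π' (f x) = π x) ∧
        (∀ e s, m' (g e) s = f (m e s)) ∧
        ∀ x y, π x = π y → π x ∈ J → c (f x) = c (f y) := by
  classical
  induction J using Finset.induction_on with
  | empty =>
    refine ⟨P, inferInstance, E, inferInstance, π, m, hT, hSp, fun c => ⟨id, id, ?_, ?_, ?_⟩⟩
    · intro x
      rfl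
    · intro e s
      rfl
    · intro x y _ h
      exact absurd h (Finset.notMem_empty _)
  | insert j J _ ih =>
    obtain ⟨P', hP', E', hE', π', m', hT', hSp', hc'⟩ := ih
    obtain ⟨X, hX, EX, hEX, mX, hXs, hXc⟩ := hHG {x // π' x = j} r hr
    refine ⟨X ⊕ (EX × {x // π' x ≠ j}), inferInstance, EX × E', inferInstance, newPart π' j,
      newEdge (mX := mX) m', ?_, sparse_amalg hXs hT' hSp', ?_⟩
    · rintro ⟨ε, e⟩ s s' h
      refine hT' e s s' ?_
      have h1 : newPart π' j (cMap π' j mX ε (m' e s)) = newPart π' j (cMap π' j mX ε (m' e s')) := h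
      rw [newPart_cMap, newPart_cMap] at h1
      exact h1
    · intro c
      obtain ⟨ε, i, he⟩ := hXc (fun x => c (Sum.inl x))
      obtain ⟨f, g, hf1, hfg, hf2⟩ := hc' (fun x => c (cMap π' j mX ε x))
      refine ⟨fun x => cMap π' j mX ε (f x), fun e => (ε, g e), ?_, ?_, ?_⟩
      · intro x
        rw [newPart_cMap]
        exact hf1 x
      · intro e s
        change cMap π' j mX ε (m' (g e) s) = cMap π' j mX ε (f (m e s))
        rw [hfg e s]
      · intro x y hxy hx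
        change c (cMap π' j mX ε (f x)) = c (cMap π' j mX ε (f y))
        rw [Finset.mem_insert] at hx
        rcases hx with hx | hx
        · have h1 : π' (f x) = j := (hf1 x).trans hx
          have h2 : π' (f y) = j := (hf1 y).trans (hxy.symm.trans hx)
          rw [cMap_pos ε h1, cMap_pos ε h2, he, he]
        · exact hf2 x y hxy hx

theorem hg_succ {n : ℕ} (hHG : HG n) : HG (n + 1) := by
  classical
  intro S _ r hr
  let ι : Type := Fin r × S
  have := Fintype.ofFinite S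
  let m : (S ↪ ι) → S ↪ ((S ↪ ι) × S) := fun e => ⟨fun s => (e, s), fun a b h =>
    congrArg Prod.snd h⟩
  obtain ⟨P', hP', E', hE', π', m', -, hSp', hc'⟩ := partiteH hHG hr (S := S)
    (fun x : (S ↪ ι) × S => x.1 x.2) m (by
      intro e s s' h
      exact e.injective h) (by
      intro 𝓔 h2 hn
      obtain ⟨e₁, he₁, e₂, he₂, hne⟩ := Finset.one_lt_card.1 (show 1 < 𝓔.card by omega)
      have hleaf : ∀ e, Leaf (fun e => Set.range (m e)) 𝓔 e := by
        rintro e x y ⟨s, rfl⟩ - ⟨d, -, hde, ⟨s', hs'⟩⟩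
        exact (hde (congrArg Prod.fst hs')).elim
      exact ⟨e₁, he₁, e₂, he₂, hne, hleaf _, hleaf _⟩) (Finset.univ : Finset ι)
  refine ⟨P', hP', E', hE', m', hSp', fun c => ?_⟩
  obtain ⟨f, g, -, hfg, hf⟩ := hc' c
  let d : ι → Fin r := fun i => if h : ∃ x : (S ↪ ι) × S, x.1 x.2 = i then c (f h.choose)
    else ⟨0, hr⟩
  obtain ⟨i, e, he⟩ := pigeon hr S d
  refine ⟨g e, i, fun s => ?_⟩
  rw [hfg]
  have hex : ∃ x : (S ↪ ι) × S, x.1 x.2 = e s := ⟨(e, s), rfl⟩
  have h1 : d (e s) = c (f hex.choose) := dif_pos hex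
  rw [he s] at h1
  rw [h1]
  exact (hf hex.choose (e, s) hex.choose_spec (Finset.mem_univ _)).symm

/-- **Sparse Ramsey hypergraphs exist.** -/
theorem hg (n : ℕ) : HG n := by
  induction n with
  | zero => exact hg_zero
  | succ n ih => exact hg_succ ih

end Pool.Agent.Y783.CR
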