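import Pool.Agent.Y783.CR.Comb

/-!
# Chromatically related graphs: the main theorem for classes with the vertex Ramsey property
-/

set_option autoImplicit false

namespace Pool.Agent.Y783.CR

open Pool.Agent.Results.MP_fbe9f6_co.BipartiteRelated

theorem Mono.of_emb {W V V' κ : Type*} {H : SimpleGraph W} {G : SimpleGraph V}
    {G' : SimpleGraph V'} {c : W → κ} (h : Mono H G c) (e : G' ↪g G) : Mono H G' c := by
  obtain ⟨i, f, hf⟩ := h
  exact ⟨i, e.trans f, fun v => hf (e v)⟩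

theorem Mono.compl {W V κ : Type*} {H : SimpleGraph W} {G : SimpleGraph V} {c : W → κ}
    (h : Mono H G c) : Mono Hᶜ Gᶜ c := by
  obtain ⟨i, f, hf⟩ := h
  refine ⟨i, ⟨⟨f, f.injective⟩, ?_⟩, hf⟩
  intro a b
  change Hᶜ.Adj (f a) (f b) ↔ Gᶜ.Adj a b
  rw [SimpleGraph.compl_adj, SimpleGraph.compl_adj, f.map_adj_iff, f.injective.ne_iff]

theorem mono_compl {W V κ : Type*} {H : SimpleGraph W} {G : SimpleGraph V} {c : W → κ} :
    Mono Hᶜ Gᶜ c ↔ Mono H G c := by
  refine ⟨fun h => ?_, Mono.compl⟩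
  have h1 := h.compl
  rwa [compl_compl, compl_compl] at h1

theorem emb_compl {U V : Type*} {F : SimpleGraph U} {G : SimpleGraph V} (f : F ↪g G) :
    Nonempty (Fᶜ ↪g Gᶜ) := by
  refine ⟨⟨⟨f, f.injective⟩, ?_⟩⟩
  intro a b
  change Gᶜ.Adj (f a) (f b) ↔ Fᶜ.Adj a b
  rw [SimpleGraph.compl_adj, SimpleGraph.compl_adj, f.map_adj_iff, f.injective.ne_iff]

theorem isEmpty_compl {U V : Type*} {F : SimpleGraph U} {G : SimpleGraph V}
    (h : IsEmpty (F ↪g G)) : IsEmpty (Fᶜ ↪g Gᶜ) := by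
  refine ⟨fun f => ?_⟩
  obtain ⟨g⟩ := emb_compl f
  rw [compl_compl, compl_compl] at g
  exact h.false g

theorem free_compl {W V κ : Type*} {H : SimpleGraph W} {G : SimpleGraph V} {c : W → κ} :
    IsFreeColoring Hᶜ Gᶜ c ↔ IsFreeColoring H G c := by
  rw [free_iff, free_iff, mono_compl]

theorem related_compl {U V : Type*} {F : SimpleGraph U} {G : SimpleGraph V}
    (h : ChromaticallyRelated Fᶜ Gᶜ) : ChromaticallyRelated F G := by
  intro l hl
  obtain ⟨W, hW, H, h1, h2⟩ := h l hl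
  refine ⟨W, hW, Hᶜ, ?_, ?_⟩
  · have h3 : {k : ℕ | ∃ c : W → Fin k, IsFreeColoring Hᶜ F c} =
        {k : ℕ | ∃ c : W → Fin k, IsFreeColoring H Fᶜ c} := by
      ext k
      refine exists_congr fun c => ?_
      rw [← free_compl (H := H) (G := Fᶜ), compl_compl]
    unfold FreeChromaticNumberEq
    rw [h3]
    exact h1
  · have h3 : {k : ℕ | ∃ c : W → Fin k, IsFreeColoring Hᶜ G c} =
        {k : ℕ | ∃ c : W → Fin k, IsFreeColoring H Gᶜ c} := by
      ext k
      refine exists_congr fun c => ?_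
      rw [← free_compl (H := H) (G := Gᶜ), compl_compl]
    unfold FreeChromaticNumberEq
    rw [h3]
    exact h2

theorem related_symm {U V : Type*} {F : SimpleGraph U} {G : SimpleGraph V}
    (h : ChromaticallyRelated F G) : ChromaticallyRelated G F := by
  intro l hl
  obtain ⟨W, hW, H, h1, h2⟩ := h l hl
  exact ⟨W, hW, H, h2, h1⟩

/-- The condition is necessary. -/
theorem necessary {U V : Type*} {F : SimpleGraph U} {G : SimpleGraph V}
    (h : ChromaticallyRelated F G) : ∃ c : V → Fin 2, IsFreeColoring G F c := by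
  obtain ⟨W, -, H, ⟨⟨c, hc⟩, -⟩, -, h2⟩ := h 2 le_rfl
  have h3 : ¬ IsFreeColoring H G (fun _ => (0 : Fin 1)) := by
    intro h4
    have := h2 ⟨_, h4⟩
    omega
  rw [free_iff, not_not] at h3
  obtain ⟨-, f, -⟩ := h3
  refine ⟨fun v => c (f v), ?_⟩
  rw [free_iff] at hc ⊢
  rintro ⟨i, g, hg⟩
  exact hc ⟨i, g.trans f, hg⟩

/-- The class of finite graphs without induced `F` has the vertex Ramsey property and is closed
under disjoint unions. -/
def Nice {U : Type*} (F : SimpleGraph U) : Prop := Conn F ∧ Ram F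

/-- `F` or its complement is `Nice`. -/
def Fine {U : Type*} (F : SimpleGraph U) : Prop := Nice F ∨ Nice Fᶜ

theorem exists_copy {V : Type*} [Finite V] (G : SimpleGraph V) :
    ∃ (n : ℕ) (e : V ≃ Fin n) (G' : SimpleGraph (Fin n)), ∀ a b, G'.Adj (e a) (e b) ↔ G.Adj a b := by
  obtain ⟨n, ⟨e⟩⟩ := Finite.exists_equiv_fin V
  refine ⟨n, e, G.comap e.symm, ?_⟩
  intro a b
  simp

theorem Ram.gen {U V : Type*} {F : SimpleGraph U} (hF : Ram F) [Finite V] (G : SimpleGraph V)
    (hG : IsEmpty (F ↪g G)) (r : ℕ) (hr : 1 ≤ r) :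
    ∃ (R : Type) (_ : Finite R) (K : SimpleGraph R), IsEmpty (F ↪g K) ∧
      ∀ c : R → Fin r, Mono K G c := by
  obtain ⟨n, e, G', he⟩ := exists_copy G
  have f1 : G ↪g G' := ⟨e.toEmbedding, fun {a b} => he a b⟩
  have f2 : G' ↪g G := ⟨e.symm.toEmbedding, fun {a b} => by
    have h1 := he (e.symm a) (e.symm b)
    rw [e.apply_symm_apply, e.apply_symm_apply] at h1
    exact h1.symm⟩
  obtain ⟨R, hR, K, hK, hc⟩ := hF (Fin n) G' ⟨fun f => hG.false (f.trans f2)⟩ r hr
  exact ⟨R, hR, K, hK, fun c => (hc c).of_emb f1⟩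

theorem ram_compl {U : Type*} {F : SimpleGraph U} (hF : Ram Fᶜ) : Ram F := by
  intro V _ G hG r hr
  obtain ⟨R, hR, K, hK, hc⟩ := hF V Gᶜ (isEmpty_compl hG) r hr
  refine ⟨R, hR, Kᶜ, ?_, ?_⟩
  · have := isEmpty_compl hK
    rwa [compl_compl] at this
  · intro c
    have := (hc c).compl
    rwa [compl_compl] at this

theorem Fine.ram {U : Type*} {F : SimpleGraph U} (hF : Fine F) : Ram F := by
  rcases hF with h | h
  · exact h.2
  · exact ram_compl h.2

theorem related_of_emb_nice {U V : Type*} [Finite V] {F : SimpleGraph U} {G : SimpleGraph V}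
    (hF : Nice F) (e : F ↪g G) (κ : V → Fin 2) (hκ : ¬ Mono G F κ) :
    ChromaticallyRelated F G := by
  intro l hl
  obtain ⟨r, hr, rfl⟩ : ∃ r, 1 ≤ r ∧ l = r + 1 := ⟨l - 1, by omega, by omega⟩
  obtain ⟨n, ε, G', he⟩ := exists_copy G
  have f1 : G ↪g G' := ⟨ε.toEmbedding, fun {a b} => he a b⟩
  let f2 : G' ↪g G := ⟨ε.symm.toEmbedding, fun {a b} => by
    have h1 := he (ε.symm a) (ε.symm b)
    rw [ε.apply_symm_apply, ε.apply_symm_apply] at h1
    exact h1.symm⟩
  obtain ⟨x0, -, -⟩ := hF.1.1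
  have hne : Nonempty U := ⟨x0⟩
  have hneV : Nonempty V := ⟨e x0⟩
  have hκ' : ¬ Mono G' F (fun v => decide (κ (ε.symm v) = 0)) := by
    rintro ⟨i, f, hf⟩
    refine hκ ⟨κ (ε.symm (f x0)), f.trans f2, ?_⟩
    intro v
    have h1 := hf v
    have h2 := (hf v).trans (hf x0).symm
    rw [decide_eq_decide] at h2
    have h3 : ∀ a b : Fin 2, (a = 0 ↔ b = 0) → a = b := by decide
    exact h3 _ _ h2
  obtain ⟨W, hW, H, ⟨p, hp⟩, hc⟩ := exists_graph hF.1 hF.2 G' _ hκ' hr
  refine ⟨W, hW, H, number_eq H F (fun c => ((hc c).of_emb f1).of_emb e) ⟨p, hp⟩,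
    number_eq H G (fun c => (hc c).of_emb f1) ⟨p, fun h => hp (h.of_emb e)⟩⟩

theorem related_of_emb {U V : Type*} [Finite V] {F : SimpleGraph U} {G : SimpleGraph V}
    (hF : Fine F) (e : F ↪g G) (h : ∃ c : V → Fin 2, IsFreeColoring G F c) :
    ChromaticallyRelated F G := by
  obtain ⟨κ, hκ⟩ := h
  rw [free_iff] at hκ
  rcases hF with h | h
  · exact related_of_emb_nice h e κ hκ
  · refine related_compl ?_
    obtain ⟨e'⟩ := emb_compl e
    exact related_of_emb_nice h e' κ (fun h => hκ (mono_compl.1 h))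

theorem tight_top {U : Type*} [Nontrivial U] : Tight (⊤ : SimpleGraph U) := by
  refine ⟨inferInstance, ?_⟩
  rintro A B ⟨a, ha⟩ ⟨b, hb⟩ hAB h
  have hne : a ≠ b := fun h' => hAB a ha (h' ▸ hb)
  exact (h a ha b hb ((SimpleGraph.top_adj a b).2 hne)).elim

theorem ram_of_tight {U : Type*} {F : SimpleGraph U} (hF : Tight F) : Ram F :=
  fun V _ G hG r hr => folkman hF G hG hr

theorem nice_top {U : Type*} [Nontrivial U] : Nice (⊤ : SimpleGraph U) :=
  ⟨tight_top.conn, ram_of_tight tight_top⟩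

theorem eq_top_of_emb {U V : Type*} {G : SimpleGraph V} (f : G ↪g (⊤ : SimpleGraph U)) :
    G = ⊤ := by
  ext a b
  rw [← f.map_adj_iff, SimpleGraph.top_adj, SimpleGraph.top_adj, f.injective.ne_iff]

theorem top_emb {U V : Type*} (f : U ↪ V) : Nonempty ((⊤ : SimpleGraph U) ↪g (⊤ : SimpleGraph V)) :=
  ⟨⟨f, fun {a b} => by
    change (⊤ : SimpleGraph V).Adj (f a) (f b) ↔ (⊤ : SimpleGraph U).Adj a b
    rw [SimpleGraph.top_adj, SimpleGraph.top_adj, f.injective.ne_iff]⟩⟩

/-- complete graphs, incomparable case -/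
theorem top_incomparable {U V : Type*} [Finite U] [Finite V] [Nontrivial U] [Nontrivial V]
    (G : SimpleGraph V) (h1 : IsEmpty ((⊤ : SimpleGraph U) ↪g G))
    (h2 : IsEmpty (G ↪g (⊤ : SimpleGraph U))) : ChromaticallyRelated (⊤ : SimpleGraph U) G := by
  classical
  have := Fintype.ofFinite U
  have := Fintype.ofFinite V
  refine related_of_incomparable _ G (fun r hr => nice_top.2.gen G h1 r hr) ?_
  intro r hr
  obtain ⟨n, ⟨ε⟩⟩ := Finite.exists_equiv_fin U
  refine ⟨Fin r × Fin n, inferInstance, ⊤, ⟨fun f => ?_⟩, ?_⟩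
  · have hG := eq_top_of_emb f
    subst hG
    rcases le_total (Fintype.card U) (Fintype.card V) with h | h
    · obtain ⟨φ⟩ := Function.Embedding.nonempty_of_card_le h
      obtain ⟨ψ⟩ := top_emb φ
      exact h1.false ψ
    · obtain ⟨φ⟩ := Function.Embedding.nonempty_of_card_le h
      obtain ⟨ψ⟩ := top_emb φ
      exact h2.false ψ
  · intro c
    obtain ⟨i, e, he⟩ := pigeon hr (Fin n) c
    obtain ⟨ψ⟩ := top_emb e
    refine ⟨i, ⟨⟨fun u => e (ε u), fun a b hab => ε.injective (e.injective hab)⟩, ?_⟩,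
      fun u => he _⟩
    intro a b
    change (⊤ : SimpleGraph (Fin r × Fin n)).Adj (e (ε a)) (e (ε b)) ↔ (⊤ : SimpleGraph U).Adj a b
    rw [SimpleGraph.top_adj, SimpleGraph.top_adj, e.injective.ne_iff, ε.injective.ne_iff]

/-- Sufficiency. -/
theorem sufficient {U V : Type*} [Finite U] [Finite V] [Nontrivial U] [Nontrivial V]
    (F : SimpleGraph U) (G : SimpleGraph V)
    (h : F = ⊤ ∨ F = ⊥ ∨ (Fine F ∧ (Fine G ∨ Nonempty (F ↪g G))))
    (h1 : ∃ c : U → Fin 2, IsFreeColoring F G c) (h2 : ∃ c : V → Fin 2, IsFreeColoring G F c) :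
    ChromaticallyRelated F G := by
  have hfF : Fine F := by
    rcases h with rfl | rfl | h
    · exact Or.inl nice_top
    · right
      rw [compl_bot]
      exact nice_top
    · exact h.1
  by_cases hFG : Nonempty (F ↪g G)
  · obtain ⟨e⟩ := hFG
    exact related_of_emb hfF e h2
  by_cases hGF : Nonempty (G ↪g F)
  · obtain ⟨e⟩ := hGF
    have hfG : Fine G := by
      rcases h with rfl | rfl | h
      · rw [eq_top_of_emb e]
        exact Or.inl nice_top
      · right
        obtain ⟨e'⟩ := emb_compl e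
        rw [compl_bot] at e'
        rw [eq_top_of_emb e']
        exact nice_top
      · rcases h.2 with h | h
        · exact h
        · exact (hFG h).elim
    exact related_symm (related_of_emb hfG e h1)
  rw [not_nonempty_iff] at hFG hGF
  rcases h with rfl | rfl | ⟨-, h⟩
  · exact top_incomparable G hFG hGF
  · refine related_compl ?_
    have h3 := isEmpty_compl hFG
    have h4 := isEmpty_compl hGF
    rw [compl_bot] at h3 h4 ⊢
    exact top_incomparable Gᶜ h3 h4
  · rcases h with h | h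
    · exact related_of_incomparable F G (fun r hr => hfF.ram.gen G hFG r hr)
        (fun r hr => h.ram.gen F hGF r hr)
    · exact (hFG.false h.some).elim

/-- **Main theorem.** -/
theorem main {U V : Type*} [Finite U] [Finite V] [Nontrivial U] [Nontrivial V]
    (F : SimpleGraph U) (G : SimpleGraph V)
    (h : F = ⊤ ∨ F = ⊥ ∨ (Fine F ∧ (Fine G ∨ Nonempty (F ↪g G)))) :
    ChromaticallyRelated F G ↔ (∃ c : U → Fin 2, IsFreeColoring F G c) ∧
      ∃ c : V → Fin 2, IsFreeColoring G F c :=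
  ⟨fun h' => ⟨necessary (related_symm h'), necessary h'⟩, fun h' => sufficient F G h h'.1 h'.2⟩

end Pool.Agent.Y783.CR
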