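import Pool.Agent.Y783.CR.Folkman

/-!
# The recursion over the colours
-/

set_option autoImplicit false

namespace Pool.Agent.Y783.CR

open Pool.Agent.Results.MP_fbe9f6_co.BipartiteRelated

/-- The vertex Ramsey property of the class of finite graphs without induced `F`. -/
def Ram {U : Type*} (F : SimpleGraph U) : Prop :=
  ∀ (V : Type) [Finite V] (G : SimpleGraph V), IsEmpty (F ↪g G) → ∀ r : ℕ, 1 ≤ r →
    ∃ (R : Type) (_ : Finite R) (K : SimpleGraph R), IsEmpty (F ↪g K) ∧
      ∀ c : R → Fin r, Mono K G c

/-- The edges of `G` inside the two sides of `κ`. -/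
def sides {V : Type*} (G : SimpleGraph V) (κ : V → Bool) : SimpleGraph V where
  Adj a b := κ a = κ b ∧ G.Adj a b
  symm := ⟨fun _ _ h => ⟨h.1.symm, h.2.symm⟩⟩
  loopless := ⟨fun _ h => h.2.ne rfl⟩

theorem sides_free {U V : Type*} {F : SimpleGraph U} (hF : Conn F) {G : SimpleGraph V}
    {κ : V → Bool} (hκ : ¬ Mono G F κ) : IsEmpty (F ↪g sides G κ) := by
  refine ⟨fun f => hκ ?_⟩
  obtain ⟨x0, -, -⟩ := hF.1
  have h := hF.2 {x | κ (f x) = κ (f x0)} ⟨x0, rfl⟩ (by
    intro a b hab
    have h1 : (sides G κ).Adj (f a) (f b) := f.map_adj_iff.2 hab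
    have h2 : κ (f a) = κ (f b) := h1.1
    simp only [Set.mem_ofPred_eq]
    rw [h2])
  refine ⟨κ (f x0), ⟨⟨fun x => f x, f.injective⟩, ?_⟩, fun v => h v⟩
  intro a b
  constructor
  · intro hab
    exact f.map_adj_iff.1 ⟨(h a).trans (h b).symm, hab⟩
  · intro hab
    have h1 : (sides G κ).Adj (f a) (f b) := f.map_adj_iff.2 hab
    exact h1.2

/-- Add to `H`, for each map `S` from the vertices of `K` to the sets of vertices of `H`, copies
of `K` in which the vertex `x` is joined to the members of `S x`. -/
def layer {W R : Type} (H : SimpleGraph W) (K : SimpleGraph R) (N : Type) :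
    SimpleGraph (W ⊕ (((R → Set W) × N) × R)) where
  Adj a b := match a, b with
    | Sum.inl x, Sum.inl y => H.Adj x y
    | Sum.inl x, Sum.inr p => x ∈ p.1.1 p.2
    | Sum.inr p, Sum.inl x => x ∈ p.1.1 p.2
    | Sum.inr p, Sum.inr q => (copies ((R → Set W) × N) K).Adj p q
  symm := ⟨by
    rintro (x | p) (y | q) h
    · exact H.symm.symm _ _ h
    · exact h
    · exact h
    · exact (copies ((R → Set W) × N) K).symm.symm _ _ h⟩
  loopless := ⟨by
    rintro (x | p) h
    · exact H.loopless.irrefl x h
    · exact (copies ((R → Set W) × N) K).loopless.irrefl p h⟩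

theorem layer_free {U : Type*} {W R : Type} {F : SimpleGraph U} (hF : Conn F)
    {H : SimpleGraph W} {K : SimpleGraph R} {N : Type} (hK : IsEmpty (F ↪g K)) {j : ℕ}
    {p : W → Fin j} (hp : ¬ Mono H F p) :
    ¬ Mono (layer H K N) F (Sum.elim (fun w => (p w).castSucc) (fun _ => Fin.last j)) := by
  rintro ⟨i, f, hf⟩
  obtain ⟨x0, -, -⟩ := hF.1
  by_cases hi : i = Fin.last j
  · -- the new layer
    have h1 : ∀ x, ∃ q, f x = Sum.inr q := by
      intro x
      rcases hx : f x with w | q
      · have h2 := hf x
        rw [hx, hi] at h2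
        exact ((Fin.castSucc_lt_last (p w)).ne h2).elim
      · exact ⟨q, rfl⟩
    choose g hg using h1
    refine (copies_free (I := (R → Set W) × N) hF hK).false ⟨⟨g, ?_⟩, ?_⟩
    · intro a b hab
      refine f.injective ?_
      rw [hg a, hg b, hab]
    · intro a b
      have h2 : (layer H K N).Adj (f a) (f b) ↔ F.Adj a b := f.map_adj_iff
      rw [hg a, hg b] at h2
      exact h2
  · have h1 : ∀ x, ∃ w, f x = Sum.inl w := by
      intro x
      rcases hx : f x with w | q
      · exact ⟨w, rfl⟩
      · have h2 := hf x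
        rw [hx] at h2
        exact (hi h2.symm).elim
    choose g hg using h1
    refine hp ⟨p (g x0), ⟨⟨g, ?_⟩, ?_⟩, ?_⟩
    · intro a b hab
      refine f.injective ?_
      rw [hg a, hg b, hab]
    · intro a b
      have h2 : (layer H K N).Adj (f a) (f b) ↔ F.Adj a b := f.map_adj_iff
      rw [hg a, hg b] at h2
      exact h2
    · intro v
      have h2 := hf v
      have h3 := hf x0
      rw [hg] at h2 h3
      have h4 := h2.trans h3.symm
      exact Fin.castSucc_injective _ h4

/-- The main recursion. -/
theorem recursion {U : Type*} {F : SimpleGraph U} (hF : Conn F) {V : Type} [Finite V]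
    (G : SimpleGraph V) (κ : V → Bool) {R : Type} [Finite R]
    {K : SimpleGraph R} (hK : IsEmpty (F ↪g K)) {r : ℕ} (hr : 1 ≤ r)
    (hKc : ∀ c : R → Fin r, Mono K (sides G κ) c) (j : ℕ) :
    ∃ (W : Type) (_ : Finite W) (H : SimpleGraph W), (∃ p : W → Fin j, ¬ Mono H F p) ∧
      ∀ c : W → Fin r, ¬ Mono H G c → ∃ I : Finset (Fin r), j ≤ I.card ∧ ∀ i ∈ I,
        ∃ θ : (sides G κ ↪g K) × V → W, Function.Injective θ ∧ (∀ x, c (θ x) = i) ∧
          ∀ t a b, H.Adj (θ (t, a)) (θ (t, b)) ↔ (sides G κ).Adj a b := by
  classical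
  induction j with
  | zero =>
    refine ⟨Empty, inferInstance, ⊥, ⟨fun x => x.elim, ?_⟩, ?_⟩
    · rintro ⟨i, -, -⟩
      exact i.elim0
    · intro c _
      exact ⟨∅, by simp, fun i hi => absurd hi (Finset.notMem_empty i)⟩
  | succ j ih =>
    obtain ⟨W, _, H, ⟨p, hp⟩, hH⟩ := ih
    have hfin : Finite (sides G κ ↪g K) :=
      Finite.of_injective (fun f : sides G κ ↪g K => (f : V → R)) DFunLike.coe_injective
    refine ⟨W ⊕ (((R → Set W) × (Fin r × (sides G κ ↪g K))) × R), inferInstance,
      layer H K _, ⟨_, layer_free hF hK hp⟩, ?_⟩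
    intro c hc
    have hcW : ¬ Mono H G (fun w => c (Sum.inl w)) := by
      rintro ⟨i, f, hf⟩
      refine hc ⟨i, ⟨⟨fun v => Sum.inl (f v), ?_⟩, ?_⟩, hf⟩
      · intro a b hab
        exact f.injective (Sum.inl_injective hab)
      · intro a b
        exact f.map_adj_iff
    obtain ⟨I, hI, hθ⟩ := hH _ hcW
    choose θ hθinj hθc hθadj using hθ
    let S : R → Set W := fun x => {w | ∃ (i : Fin r) (hi : i ∈ I) (t : sides G κ ↪g K)
      (v y : V), κ v = true ∧ κ y = false ∧ G.Adj v y ∧ w = θ i hi (t, v) ∧ x = t y}
    have hmono : ∀ n : Fin r × (sides G κ ↪g K),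
        Mono K (sides G κ) (fun x => c (Sum.inr ((S, n), x))) := fun n => hKc _
    choose q φ hφ using hmono
    have hqI : ∀ n, q n ∉ I := by
      intro n hn
      have hmem : ∀ a b, κ a = true → κ b = false →
          (θ (q n) hn (φ n, a) ∈ S (φ n b) ↔ G.Adj a b) := by
        intro a b ha hb
        constructor
        · rintro ⟨i', hi', t', v, y, -, -, hvy, hw, hx⟩
          have h1 : i' = q n := by
            rw [← hθc (q n) hn (φ n, a), ← hθc i' hi' (t', v), hw]
          have h2 : ((φ n, a) : (sides G κ ↪g K) × V) = (t', v) := by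
            clear_value S
            subst i'
            exact hθinj (q n) hn hw
          have h3 : φ n = t' := congrArg Prod.fst h2
          have h4 : a = v := congrArg Prod.snd h2
          subst h4
          rw [← h3] at hx
          have h5 : b = y := (φ n).injective hx
          rw [h5]
          exact hvy
        · intro h
          exact ⟨q n, hn, φ n, a, b, ha, hb, h, rfl, rfl⟩
      let g : V → W ⊕ (((R → Set W) × (Fin r × (sides G κ ↪g K))) × R) := fun v =>
        if κ v = true then Sum.inl (θ (q n) hn (φ n, v)) else Sum.inr ((S, n), φ n v)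
      have hg1 : ∀ v, κ v = true → g v = Sum.inl (θ (q n) hn (φ n, v)) := fun v hv => if_pos hv
      have hg2 : ∀ v, κ v = false → g v = Sum.inr ((S, n), φ n v) := fun v hv =>
        if_neg (by rw [hv]; exact Bool.false_ne_true)
      refine hc ⟨q n, ⟨⟨g, ?_⟩, ?_⟩, ?_⟩
      · intro a b hab
        rcases ha : κ a <;> rcases hb : κ b
        · rw [hg2 a ha, hg2 b hb] at hab
          exact (φ n).injective (congrArg Prod.snd (Sum.inr_injective hab))
        · rw [hg2 a ha, hg1 b hb] at hab
          exact (Sum.inr_ne_inl hab).elim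
        · rw [hg1 a ha, hg2 b hb] at hab
          exact (Sum.inl_ne_inr hab).elim
        · rw [hg1 a ha, hg1 b hb] at hab
          exact congrArg Prod.snd (hθinj (q n) hn (Sum.inl_injective hab))
      · intro a b
        change (layer H K _).Adj (g a) (g b) ↔ G.Adj a b
        rcases ha : κ a <;> rcases hb : κ b
        · rw [hg2 a ha, hg2 b hb]
          constructor
          · intro h
            have h1 : K.Adj (φ n a) (φ n b) := h.2
            exact ((φ n).map_adj_iff.1 h1).2
          · intro h
            have h1 : K.Adj (φ n a) (φ n b) := (φ n).map_adj_iff.2 ⟨ha.trans hb.symm, h⟩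
            exact ⟨rfl, h1⟩
        · rw [hg2 a ha, hg1 b hb]
          exact (hmem b a hb ha).trans (G.adj_comm b a)
        · rw [hg1 a ha, hg2 b hb]
          exact hmem a b ha hb
        · rw [hg1 a ha, hg1 b hb]
          refine (hθadj (q n) hn (φ n) a b).trans ?_
          constructor
          · intro h
            exact h.2
          · intro h
            exact ⟨ha.trans hb.symm, h⟩
      · intro v
        change c (g v) = q n
        rcases hv : κ v
        · rw [hg2 v hv]
          exact hφ n v
        · rw [hg1 v hv]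
          exact hθc (q n) hn (φ n, v)
    obtain ⟨i, e, he⟩ := pigeon hr (sides G κ ↪g K) q
    have hiI : i ∉ I := by
      obtain ⟨-, t0, -⟩ := hKc (fun _ => ⟨0, hr⟩)
      rw [← he t0]
      exact hqI _
    refine ⟨insert i I, ?_, ?_⟩
    · rw [Finset.card_insert_of_notMem hiI]
      omega
    · intro i' hi'
      rw [Finset.mem_insert] at hi'
      rcases hi' with rfl | hi'
      · refine ⟨fun x => Sum.inr ((S, e x.1), φ (e x.1) x.2), ?_, ?_, ?_⟩
        · rintro ⟨t, a⟩ ⟨t', b⟩ hab
          have h1 := Sum.inr_injective hab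
          have h2 : e t = e t' := congrArg (fun z => z.1.2) h1
          have h3 : t = t' := e.injective h2
          subst h3
          have h4 : φ (e t) a = φ (e t) b := congrArg Prod.snd h1
          rw [(φ (e t)).injective h4]
        · rintro ⟨t, a⟩
          exact (hφ (e t) a).trans (he t)
        · intro t a b
          refine Iff.trans ?_ (φ (e t)).map_adj_iff
          constructor
          · intro h
            exact h.2
          · intro h
            exact ⟨rfl, h⟩
      · refine ⟨fun x => Sum.inl (θ i' hi' x), ?_, ?_, ?_⟩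
        · intro a b hab
          exact hθinj i' hi' (Sum.inl_injective hab)
        · intro x
          exact hθc i' hi' x
        · intro t a b
          exact hθadj i' hi' t a b

/-- If `F` is connected with the vertex Ramsey property and the vertices of the finite graph `G` can be split into two
sets without induced `F`, then some finite graph `H` has a partition into `r + 1` classes without
induced `F`, while every partition into `r` classes has a class with an induced `G`. -/
theorem exists_graph {U : Type*} {F : SimpleGraph U} (hF : Conn F) (hR : Ram F) {V : Type}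
    [Finite V]
    (G : SimpleGraph V) (κ : V → Bool) (hκ : ¬ Mono G F κ) {r : ℕ} (hr : 1 ≤ r) :
    ∃ (W : Type) (_ : Finite W) (H : SimpleGraph W), (∃ p : W → Fin (r + 1), ¬ Mono H F p) ∧
      ∀ c : W → Fin r, Mono H G c := by
  obtain ⟨R, _, K, hK, hKc⟩ := hR V (sides G κ) (sides_free hF hκ) r hr
  obtain ⟨W, hW, H, hp, hH⟩ := recursion hF G κ hK hr hKc (r + 1)
  refine ⟨W, hW, H, hp, fun c => ?_⟩
  by_contra hcon
  obtain ⟨I, hI, -⟩ := hH c hcon
  have := Finset.card_le_univ I
  rw [Fintype.card_fin] at this
  omega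

end Pool.Agent.Y783.CR
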